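import Pool.Agent.H74.CT.Slow
import Pool.Agent.H18.Iso.Few

/-!
# Pair sums at most `d + 1`: many large multiplicities
-/

namespace Pool.Agent.H74.CT

open Pool.Agent.H18.Fat Finset

theorem choose_le_pow (M : ℕ) (hM : 1 ≤ M) : ∀ n : ℕ, (M + n - 1).choose n ≤ M ^ n := by
  intro n
  induction n with
  | zero => simp
  | succ n ih =>
    have h1 : (M + n - 1 + 1) * (M + n - 1).choose n =
        (M + n - 1 + 1).choose (n + 1) * (n + 1) := Nat.add_one_mul_choose_eq _ _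
    have h2 : M + (n + 1) - 1 = M + n - 1 + 1 := by omega
    have h3 : M + n - 1 + 1 ≤ M * (n + 1) := by
      have h4 : M + n - 1 + 1 = M + n := by omega
      rw [h4]
      nlinarith
    rw [h2]
    have h4 : (M + n - 1 + 1).choose (n + 1) * (n + 1) ≤ (M ^ (n + 1)) * (n + 1) := by
      rw [← h1]
      calc (M + n - 1 + 1) * (M + n - 1).choose n ≤ (M * (n + 1)) * M ^ n :=
            Nat.mul_le_mul h3 ih
        _ = _ := by ring
    exact Nat.le_of_mul_le_mul_right h4 (by omega)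

theorem DD_le (n M : ℕ) (hM : 1 ≤ M) : DD n M ≤ 10 ^ 6 * n ^ 3 * M ^ (3 * n + 8) := by
  unfold DD
  calc 10 ^ 6 * n ^ 3 * M ^ 8 * (M + n - 1).choose n ^ 3 ≤ 10 ^ 6 * n ^ 3 * M ^ 8 * (M ^ n) ^ 3 :=
        Nat.mul_le_mul_left _ (Nat.pow_le_pow_left (choose_le_pow M hM n) 3)
    _ = _ := by ring

theorem DD_pos (n M : ℕ) (hn : 1 ≤ n) (hM : 1 ≤ M) : 1 ≤ DD n M := by
  unfold DD
  have hB : 1 ≤ (M + n - 1).choose n := Nat.choose_pos (by omega)
  exact Nat.one_le_iff_ne_zero.2 (by positivity)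

theorem sum_le_of_pairs {h c : ℕ} (m : Fin h → ℕ) (J : Finset (Fin h)) (hJ : 2 ≤ J.card)
    (hp : ∀ i j, i ≠ j → m i + m j ≤ c) : 2 * ∑ i ∈ J, m i ≤ J.card * c := by
  obtain ⟨s, hs⟩ : ∃ s, J.card = s + 2 := ⟨J.card - 2, by omega⟩
  have h1 := Pool.Agent.H18.Iso.two_mul_sum_le (fun l => m (J.orderEmbOfFin hs l)) (c := c)
    fun i j hij => hp _ _ fun h => hij ((J.orderEmbOfFin hs).injective h)
  have h2 : ∑ l, m (J.orderEmbOfFin hs l) = ∑ i ∈ J, m i := by
    have h3 : J = univ.map (J.orderEmbOfFin hs).toEmbedding := by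
      ext i
      rw [mem_map]
      constructor
      · intro hi
        have h4 : i ∈ Set.range (J.orderEmbOfFin hs) := by
          rw [range_orderEmbOfFin]
          exact hi
        obtain ⟨l, hl⟩ := h4
        exact ⟨l, mem_univ l, hl⟩
      · rintro ⟨l, -, rfl⟩
        exact J.orderEmbOfFin_mem hs l
    conv_rhs => rw [h3, sum_map]
    rfl
  rw [h2] at h1
  rw [hs]
  exact h1

/-- All the large multiplicities at most `d - D`. -/
theorem margin_pairs (n M : ℕ) (hn : 2 ≤ n) (hM : 1 ≤ M) (h d : ℕ) (m : Fin h → ℕ)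
    (J : Finset (Fin h)) (hJ : ∀ i, i ∉ J → m i ≤ M) (hd : 3 * DD n M ≤ d)
    (hall : ∀ i ∈ J, m i + DD n M ≤ d)
    (hsum : J.card + 1 ≤ 2 * n ∨ ∑ i ∈ J, m i + DD n M ≤ n * d)
    (hp : ∀ i j, i ≠ j → m i + m j ≤ d + 1) :
    ForGeneralPoints n h fun p => ImposesMaximalConditions n d p m := by
  classical
  have hDpos := DD_pos n M (by omega) hM
  have hDn : 2 * n ≤ DD n M := by
    unfold DD
    have hB : 1 ≤ (M + n - 1).choose n := Nat.choose_pos (by omega)
    have h1 : 1 ≤ n ^ 2 * M ^ 8 * (M + n - 1).choose n ^ 3 :=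
      Nat.one_le_iff_ne_zero.2 (by positivity)
    calc 2 * n = (2 * n) * 1 := by ring
      _ ≤ (10 ^ 6 * n) * (n ^ 2 * M ^ 8 * (M + n - 1).choose n ^ 3) :=
          Nat.mul_le_mul (Nat.mul_le_mul_right _ (by norm_num)) h1
      _ = _ := by ring
  set D := DD n M with hD
  refine slow_main n M hn hM h d m J hJ (by omega) hall ?_ fun a _ b _ hab => hp a b hab
  rcases hsum with hcard | hsum
  · have hnd : 2 * d ≤ n * d := Nat.mul_le_mul_right _ hn
    rcases Nat.lt_or_ge J.card 2 with hlt | hge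
    · have h3 : ∑ i ∈ J, m i ≤ d := by
        rcases Nat.lt_or_ge J.card 1 with h0 | h1
        · have : J = ∅ := by
            rw [← card_eq_zero]
            omega
          rw [this, sum_empty]
          exact Nat.zero_le _
        · obtain ⟨a, ha⟩ := card_eq_one.1 (show J.card = 1 by omega)
          rw [ha, sum_singleton]
          have := hall a (by rw [ha]; exact mem_singleton_self a)
          omega
      omega
    · have h3 := sum_le_of_pairs m J hge hp
      have h4 : J.card * (d + 1) ≤ (2 * n - 1) * (d + 1) := Nat.mul_le_mul_right _ (by omega)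
      have h5 : (2 * n - 1) * (d + 1) + (d + 1) = 2 * (n * d) + 2 * n := by
        have h6 : 2 * n - 1 + 1 = 2 * n := by omega
        calc (2 * n - 1) * (d + 1) + (d + 1) = (2 * n - 1 + 1) * (d + 1) := by ring
          _ = _ := by rw [h6]; ring
      omega
  · exact hsum

/-- All cases. -/
theorem all_pairs (n : ℕ) (hn : 2 ≤ n) : ∃ K E : ℕ, ∀ M : ℕ, 1 ≤ M → ∀ (h d : ℕ)
    (m : Fin h → ℕ) (J : Finset (Fin h)), 3 * DD n M ≤ d → (∀ i, i ∉ J → m i ≤ M) →
    ((∀ i ∈ J, m i + DD n M ≤ d) ∨ (3 ≤ n ∧ K * M ^ E ≤ d)) →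
    (J.card + 1 ≤ 2 * n ∨ ∑ i ∈ J, m i + DD n M ≤ n * d) →
    (∀ i j, i ≠ j → m i + m j ≤ d + 1) →
    ForGeneralPoints n h fun p => ImposesMaximalConditions n d p m := by
  classical
  obtain ⟨K₁, E₁, hfew⟩ := Pool.Agent.H18.Iso.few n hn
  set K₀ := 10 ^ 6 * n ^ 3 with hK₀
  refine ⟨K₁ * K₀ ^ E₁, (3 * n + 8) * E₁, fun M hM h d m J hd3 hJ hor hsum hp => ?_⟩
  have hDle := DD_le n M hM
  have hDpos := DD_pos n M (by omega) hM
  set D := DD n M with hD
  by_cases hall : ∀ i ∈ J, m i + D ≤ d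
  · exact margin_pairs n M hn hM h d m J hJ hd3 hall hsum hp
  · -- one multiplicity close to `d`
    obtain ⟨hn3, hd⟩ := hor.resolve_left hall
    have hd1 : K₁ * D ^ E₁ ≤ d := by
      refine le_trans ?_ hd
      calc K₁ * D ^ E₁ ≤ K₁ * (K₀ * M ^ (3 * n + 8)) ^ E₁ :=
            Nat.mul_le_mul_left _ (Nat.pow_le_pow_left hDle _)
        _ = K₁ * K₀ ^ E₁ * M ^ ((3 * n + 8) * E₁) := by rw [mul_pow, ← pow_mul]; ring
    push Not at hall
    obtain ⟨i₀, hi₀, h3⟩ := hall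
    refine hfew D hDpos h d m {i₀} ?_ (fun i hi => ?_) hd1 (fun h4 => absurd h4 (by omega)) hp
    · rw [card_singleton]
      omega
    · have h4 := hp i i₀ fun h5 => hi (mem_singleton.2 h5)
      omega

end Pool.Agent.H74.CT
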