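import Pool.Agent.H74.CT.Mul
import Pool.Agent.H18.Nef.NefA

/-!
# Forms of degree `2 q` with multiplicity more than `q` at fewer than `2 ^ r` points
-/

namespace Pool.Agent.H74.CT

open MvPolynomial Pool.Agent.H18.Fat Pool.Agent.H18.Ub Finset

theorem bern (r Q : ℕ) (hQ : r ≤ Q) : (Q + 1 - r) * (Q + 1) ^ r ≤ (Q + 1) * Q ^ r := by
  have key : ∀ n : ℕ, (Q + 1) ^ (n + 1) ≤ (Q + 1) * Q ^ n + n * (Q + 1) ^ n := by
    intro n
    induction n with
    | zero => simp
    | succ n ih =>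
      calc (Q + 1) ^ (n + 1 + 1) = (Q + 1) * (Q + 1) ^ (n + 1) := by ring
        _ ≤ (Q + 1) * (Q + 1) ^ (n + 1) := le_rfl
        _ = Q * (Q + 1) ^ (n + 1) + (Q + 1) ^ (n + 1) := by ring
        _ ≤ Q * ((Q + 1) * Q ^ n + n * (Q + 1) ^ n) + (Q + 1) ^ (n + 1) :=
            Nat.add_le_add_right (Nat.mul_le_mul_left _ ih) _
        _ = (Q + 1) * Q ^ (n + 1) + n * (Q * (Q + 1) ^ n) + (Q + 1) ^ (n + 1) := by ring
        _ ≤ (Q + 1) * Q ^ (n + 1) + n * ((Q + 1) * (Q + 1) ^ n) + (Q + 1) ^ (n + 1) := by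
            refine Nat.add_le_add_right (Nat.add_le_add_left (Nat.mul_le_mul_left _
              (Nat.mul_le_mul_right _ (Nat.le_succ Q))) _) _
        _ = _ := by ring
  have h1 := key r
  have h2 : (Q + 1 - r) * (Q + 1) ^ r + r * (Q + 1) ^ r = (Q + 1) ^ (r + 1) := by
    rw [← Nat.add_mul, Nat.sub_add_cancel (by omega), pow_succ]
    ring
  omega

theorem bern2 (r : ℕ) : (2 ^ r - 1) * (r * 2 ^ r + 1) ^ r ≤ 2 ^ r * (r * 2 ^ r) ^ r := by
  have h2 : 1 ≤ 2 ^ r := Nat.one_le_two_pow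
  have hr : r ≤ r * 2 ^ r := Nat.le_mul_of_pos_right _ (by omega)
  have h1 := bern r (r * 2 ^ r) hr
  set Q := r * 2 ^ r with hQ
  have h3 : (2 ^ r - 1) * (Q + 1) ≤ 2 ^ r * (Q + 1 - r) := by
    obtain ⟨a, ha⟩ : ∃ a, 2 ^ r = a + 1 := ⟨2 ^ r - 1, by omega⟩
    obtain ⟨b, hb⟩ : ∃ b, Q + 1 = b + r := ⟨Q + 1 - r, by omega⟩
    have h4 : Q + 1 - r = b := by omega
    have h5 : 2 ^ r - 1 = a := by omega
    rw [h4, h5, hb, ha]
    rw [ha] at hQ
    nlinarith
  have h6 : ((2 ^ r - 1) * (Q + 1) ^ r) * (Q + 1) ≤ (2 ^ r * Q ^ r) * (Q + 1) := by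
    calc ((2 ^ r - 1) * (Q + 1) ^ r) * (Q + 1) = ((2 ^ r - 1) * (Q + 1)) * (Q + 1) ^ r := by ring
      _ ≤ (2 ^ r * (Q + 1 - r)) * (Q + 1) ^ r := Nat.mul_le_mul_right _ h3
      _ = 2 ^ r * ((Q + 1 - r) * (Q + 1) ^ r) := by ring
      _ ≤ 2 ^ r * ((Q + 1) * Q ^ r) := Nat.mul_le_mul_left _ h1
      _ = _ := by ring
  exact Nat.le_of_mul_le_mul_right h6 (by omega)

/-- The count. -/
theorem count (r κ : ℕ) (hr : 1 ≤ r) :
    (2 ^ r - 1) * ((r * 2 ^ r * (κ + r) + κ) + r - 1).choose r <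
      (2 * (r * 2 ^ r * (κ + r)) + r).choose r := by
  set Q := r * 2 ^ r with hQ
  set q := Q * (κ + r) with hq
  have h1 := bern2 r
  rw [← hQ] at h1
  have h2 : (q + κ + r - 1).descFactorial r ≤ (q + κ + r - 1) ^ r := Nat.descFactorial_le_pow _ _
  have h3 : (2 * q + r + 1 - r) ^ r ≤ (2 * q + r).descFactorial r :=
    Nat.pow_sub_le_descFactorial _ _
  rw [Nat.descFactorial_eq_factorial_mul_choose] at h2 h3
  have h4 : (2 * q) ^ r < (2 * q + r + 1 - r) ^ r := Nat.pow_lt_pow_left (by omega) (by omega)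
  have h5 : (q + κ + r - 1) ^ r ≤ (q + κ + r) ^ r := Nat.pow_le_pow_left (by omega) r
  have h6 : (2 ^ r - 1) * (q + κ + r) ^ r ≤ (2 * q) ^ r := by
    have h7 : q + κ + r = (Q + 1) * (κ + r) := by
      rw [hq]
      ring
    rw [h7, hq, mul_pow, ← mul_assoc, mul_pow 2, mul_pow Q, ← mul_assoc]
    exact Nat.mul_le_mul_right _ h1
  have h8 : r.factorial * ((2 ^ r - 1) * (q + κ + r - 1).choose r) <
      r.factorial * (2 * q + r).choose r := by
    calc r.factorial * ((2 ^ r - 1) * (q + κ + r - 1).choose r) =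
        (2 ^ r - 1) * (r.factorial * (q + κ + r - 1).choose r) := by ring
      _ ≤ (2 ^ r - 1) * (q + κ + r) ^ r := Nat.mul_le_mul_left _ (h2.trans h5)
      _ ≤ (2 * q) ^ r := h6
      _ < _ := h4.trans_le h3
  exact Nat.lt_of_mul_lt_mul_left h8

/-- `ν` on `J` and `a` at `P`. -/
def onu {k : ℕ} (J : Finset (Fin k)) (P : Fin k) (ν a : ℕ) : Fin k → ℕ :=
  fun l => if l = P then a else if l ∈ J then ν else 0

theorem generalDim_pos {r κ : ℕ} (hr : 1 ≤ r) {k : ℕ} (J : Finset (Fin k)) (hJ : J.card < 2 ^ r)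
    (m : Fin k → ℕ) (h0 : ∀ l, l ∉ J → m l = 0)
    (hm : ∀ l, m l ≤ r * 2 ^ r * (κ + r) + κ) :
    1 ≤ generalDim r (2 * (r * 2 ^ r * (κ + r))) m := by
  have h1 := count r κ hr
  have h2 := generalDim_ge hr (2 * (r * 2 ^ r * (κ + r))) m
  set q := r * 2 ^ r * (κ + r) with hq
  have h3 : ∑ i, (m i + r - 1).choose r ≤ (2 ^ r - 1) * (q + κ + r - 1).choose r := by
    have h4 : ∑ i, (m i + r - 1).choose r = ∑ i ∈ J, (m i + r - 1).choose r := by
      symm
      refine sum_subset (subset_univ J) fun i _ hi => ?_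
      rw [h0 i hi, Nat.choose_eq_zero_of_lt (by omega)]
    rw [h4]
    calc ∑ i ∈ J, (m i + r - 1).choose r ≤ ∑ _i ∈ J, (q + κ + r - 1).choose r :=
          sum_le_sum fun i _ => Nat.choose_le_choose _ (by
            have := hm i
            omega)
      _ = J.card * (q + κ + r - 1).choose r := by rw [sum_const, smul_eq_mul]
      _ ≤ _ := Nat.mul_le_mul_right _ (by omega)
  have h5 : ((∑ i, (m i + r - 1).choose r : ℕ) : ℤ) < ((2 * q + r).choose r : ℤ) := by
    exact_mod_cast lt_of_le_of_lt h3 h1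
  push_cast at h5
  push_cast at h2
  omega

/-- A form not vanishing at `P`. -/
theorem exists_G0 {r q ν : ℕ} {k : ℕ} (J : Finset (Fin k)) (P : Fin k)
    (hpos : 1 ≤ generalDim r (2 * q) (onu J P ν 0)) :
    ForGeneralPoints r k fun p => ∃ G : MvPolynomial (Fin (r + 1)) ℂ, G.IsHomogeneous (2 * q) ∧
      (∀ l ∈ J, l ≠ P → VanishesToOrder G (p l) ν) ∧ ¬ VanishesToOrder G (p P) 1 := by
  classical
  have hlt : generalDim r (2 * q) (onu J P ν 1) < generalDim r (2 * q) (onu J P ν 0) := by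
    obtain ⟨p₀, hp₀⟩ := Pool.Agent.H18.Cub.exists_of_general
      (generalDim_spec r (2 * q) (onu J P ν 0))
    have hne : fatForms r (2 * q) p₀ (onu J P ν 0) ≠ ⊥ := by
      intro h
      rw [h, finrank_bot] at hp₀
      omega
    obtain ⟨F, hF, hF0⟩ := Submodule.exists_mem_ne_zero_of_ne_bot hne
    obtain ⟨x, hx⟩ : ∃ x, eval x F ≠ 0 := by
      by_contra hall
      push Not at hall
      apply hF0
      apply MvPolynomial.funext
      intro x
      rw [hall x, map_zero]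
    set p' : Fin k → Fin (r + 1) → ℂ := Function.update p₀ P x with hp'
    have heq : fatForms r (2 * q) p' (onu J P ν 0) = fatForms r (2 * q) p₀ (onu J P ν 0) := by
      have h1 : ∀ (G : MvPolynomial (Fin (r + 1)) ℂ) (l : Fin k),
          VanishesToOrder G (p' l) (onu J P ν 0 l) ↔ VanishesToOrder G (p₀ l) (onu J P ν 0 l) := by
        intro G l
        by_cases hl : l = P
        · have h2 : onu J P ν 0 l = 0 := by
            unfold onu
            rw [if_pos hl]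
          rw [h2]
          exact ⟨fun _ => vanishesToOrder_zero _ _, fun _ => vanishesToOrder_zero _ _⟩
        · rw [hp', Function.update_of_ne hl]
      ext G
      exact ⟨fun h => ⟨h.1, fun l => (h1 G l).1 (h.2 l)⟩, fun h => ⟨h.1, fun l => (h1 G l).2 (h.2 l)⟩⟩
    have hsub : fatForms r (2 * q) p' (onu J P ν 1) < fatForms r (2 * q) p' (onu J P ν 0) := by
      refine lt_of_le_of_ne (fun G hG => ⟨hG.1, fun l => van_mono (hG.2 l) ?_⟩) fun h => ?_
      · unfold onu
        split_ifs <;> omega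
      · have h1 : F ∈ fatForms r (2 * q) p' (onu J P ν 1) := by
          rw [h, heq]
          exact hF
        have h2 := h1.2 P
        have h3 : onu J P ν 1 P = 1 := by
          unfold onu
          rw [if_pos rfl]
        rw [h3, vanishesToOrder_one, hp', Function.update_self] at h2
        exact hx h2
    have hfin := fin_fatForms r (2 * q) p' (onu J P ν 0)
    have h1 := Submodule.finrank_lt_finrank_of_lt hsub
    rw [heq, hp₀] at h1
    exact lt_of_le_of_lt (Nat.sInf_le ⟨p', rfl⟩) h1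
  refine ((generalDim_spec r (2 * q) (onu J P ν 1)).and
    (generalDim_spec r (2 * q) (onu J P ν 0))).mono fun p hp => ?_
  obtain ⟨hp1, hp2⟩ := hp
  by_contra hcon
  push Not at hcon
  have h1 : fatForms r (2 * q) p (onu J P ν 0) ≤ fatForms r (2 * q) p (onu J P ν 1) := by
    intro G hG
    refine ⟨hG.1, fun l => ?_⟩
    unfold onu
    by_cases hl : l = P
    · rw [if_pos hl, hl]
      refine hcon G hG.1 fun l hl hlP => ?_
      have h2 := hG.2 l
      unfold onu at h2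
      rw [if_neg hlP, if_pos hl] at h2
      exact h2
    · have h2 := hG.2 l
      unfold onu at h2
      rw [if_neg hl] at h2 ⊢
      exact h2
  have hfin := fin_fatForms r (2 * q) p (onu J P ν 1)
  have h2 := Submodule.finrank_mono h1
  omega

/-- The exact order of vanishing. -/
theorem exists_order {r e : ℕ} {G : MvPolynomial (Fin (r + 1)) ℂ} (hG : G.IsHomogeneous e)
    (hG0 : G ≠ 0) (x : Fin (r + 1) → ℂ) {ν : ℕ} (hν : VanishesToOrder G x ν) :
    ∃ μ, ν ≤ μ ∧ μ ≤ e ∧ VanishesToOrder G x μ ∧ ¬ VanishesToOrder G x (μ + 1) := by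
  classical
  have hex : ∃ n, ¬ VanishesToOrder G x (n + 1) := ⟨e, fun h =>
    hG0 (Pool.Agent.H18.Nef.eq_zero_of_vanishes G hG x (Nat.lt_succ_self e) h)⟩
  have h1 := Nat.find_spec hex
  have hle : ∀ n, VanishesToOrder G x n → n ≤ Nat.find hex := by
    intro n hn
    by_contra hc
    exact h1 (van_mono hn (by omega))
  refine ⟨Nat.find hex, hle ν hν, Nat.find_min' hex fun h =>
    hG0 (Pool.Agent.H18.Nef.eq_zero_of_vanishes G hG x (Nat.lt_succ_self e) h), ?_, h1⟩
  rcases Nat.eq_zero_or_pos (Nat.find hex) with h2 | h2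
  · rw [h2]
    exact vanishesToOrder_zero _ _
  · have h3 := Nat.find_min hex (m := Nat.find hex - 1) (by omega)
    rw [not_not] at h3
    have h4 : Nat.find hex - 1 + 1 = Nat.find hex := by omega
    rw [h4] at h3
    exact h3

/-- The form `G₁`. -/
theorem exists_G1 {r q ν : ℕ} {k : ℕ} (J : Finset (Fin k))
    (hpos : 1 ≤ generalDim r (2 * q) fun l => if l ∈ J then ν else 0) (p : Fin k → Fin (r + 1) → ℂ)
    {P : Fin k} (hP : P ∈ J) :
    ∃ (G : MvPolynomial (Fin (r + 1)) ℂ) (μ : ℕ), G.IsHomogeneous (2 * q) ∧ ν ≤ μ ∧ μ ≤ 2 * q ∧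
      (∀ l ∈ J, VanishesToOrder G (p l) ν) ∧ VanishesToOrder G (p P) μ ∧
      ¬ VanishesToOrder G (p P) (μ + 1) := by
  have h1 : 1 ≤ Module.finrank ℂ (fatForms r (2 * q) p fun l => if l ∈ J then ν else 0) :=
    hpos.trans (Nat.sInf_le ⟨p, rfl⟩)
  have hne : fatForms r (2 * q) p (fun l => if l ∈ J then ν else 0) ≠ ⊥ := by
    intro h
    rw [h, finrank_bot] at h1
    omega
  obtain ⟨G, hG, hG0⟩ := Submodule.exists_mem_ne_zero_of_ne_bot hne
  have hv : ∀ l ∈ J, VanishesToOrder G (p l) ν := fun l hl => by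
    have h2 := hG.2 l
    dsimp only at h2
    rw [if_pos hl] at h2
    exact h2
  obtain ⟨μ, h3, h4, h5, h6⟩ := exists_order hG.1 hG0 (p P) (hv P hP)
  exact ⟨G, μ, hG.1, h3, h4, hv, h5, h6⟩

end Pool.Agent.H74.CT
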