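import Pool.Agent.H74.CT.Slow

/-!
# The grid configuration: `2 ^ r` points of multiplicity about `t / 2` in degree `t`
-/

namespace Pool.Agent.H74.CT

open Pool.Agent.H18.Fat Pool.Agent.H18.Ub Finset

/-- Multiplicities dominated by the perfect grid impose independent conditions. -/
theorem grid_general (r t k : ℕ) (hr : 1 ≤ r) (w : Fin k → ℕ) (b : Fin k → Fin r → Fin 2)
    (J : Finset (Fin k)) (hb : ∀ i ∈ J, ∀ j ∈ J, b i = b j → i = j)
    (hw : ∀ i ∈ J, w i = 0 ∨ 2 * (w i - 1) + gsum (b i) ≤ t) (h0 : ∀ i, i ∉ J → w i = 0) :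
    generalDim r t w + ∑ i, (w i + r - 1).choose r = (t + r).choose r := by
  classical
  have hζ := Complex.isPrimitiveRoot_exp 2 two_ne_zero
  set ζ := Complex.exp (2 * Real.pi * Complex.I / ((2 : ℕ) : ℂ)) with hζdef
  let κ := {i : Fin k // i ∈ J}
  let φ : κ → (Fin r → Fin 2) := fun i => b i.1
  have hφ : Function.Injective φ := fun i j hij => Subtype.ext (hb i.1 i.2 j.1 j.2 hij)
  have hsurj := surjective_of_sub (grid_surjective t hr two_pos hζ) φ hφ (fun i => w i.1)
    (fun i => by
      rcases hw i.1 i.2 with h | h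
      · rw [h]
        exact Nat.zero_le _
      · exact le_perf two_pos (b i.1) h)
  have hfr := finrank_of_surjective hr (fun i : κ => gridPt_ne ζ (φ i)) hsurj
  let p₀ : Fin k → Fin (r + 1) → ℂ := fun i => gridPt ζ (b i)
  have heq : fatForms r t p₀ w = fatForms r t (fun i : κ => gridPt ζ (φ i)) (fun i => w i.1) := by
    ext F
    constructor
    · rintro ⟨h1, h2⟩
      exact ⟨h1, fun i => h2 i.1⟩
    · rintro ⟨h1, h2⟩
      refine ⟨h1, fun i => ?_⟩
      by_cases h : i ∈ J
      · exact h2 ⟨i, h⟩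
      · rw [h0 i h]
        exact fun β hβ => absurd hβ (Nat.not_lt_zero _)
  have hsum : ∑ i : κ, (w i.1 + r - 1).choose r = ∑ i, (w i + r - 1).choose r := by
    refine (Finset.sum_coe_sort J fun i => (w i + r - 1).choose r).trans ?_
    refine sum_subset (subset_univ J) fun i _ hi => ?_
    rw [h0 i hi, Nat.choose_eq_zero_of_lt (by omega)]
  rw [hsum, ← heq] at hfr
  have hle : generalDim r t w ≤ Module.finrank ℂ (fatForms r t p₀ w) := Nat.sInf_le ⟨p₀, rfl⟩
  have hge := generalDim_ge hr t w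
  have hc : ((∑ i, (w i + r - 1).choose r : ℕ) : ℤ) = ∑ i, ((w i + r - 1).choose r : ℤ) := by
    push_cast
    rfl
  rw [← hc] at hge
  omega

/-- The indicator of a set. -/
def ind {r : ℕ} (S : Finset (Fin r)) : Fin r → Fin 2 := fun j => if j ∈ S then 1 else 0

theorem gsum_ind {r : ℕ} (S : Finset (Fin r)) : gsum (ind S) = S.card := by
  unfold gsum ind
  have h : ∀ j : Fin r, (((if j ∈ S then (1 : Fin 2) else 0) : Fin 2) : ℕ) =
      if j ∈ S then 1 else 0 := by
    intro j
    split_ifs <;> rfl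
  rw [sum_congr rfl fun j _ => h j, ← sum_filter]
  simp

theorem ind_injective {r : ℕ} {S T : Finset (Fin r)} (h : ind S = ind T) : S = T := by
  ext j
  have h1 := congrFun h j
  unfold ind at h1
  by_cases hS : j ∈ S <;> by_cases hT : j ∈ T <;> simp [hS, hT] at h1 ⊢

/-- The number of the sets with at most `e` elements. -/
theorem card_small (r e : ℕ) :
    (univ.filter fun S : Finset (Fin r) => S.card ≤ e).card = ∑ t ∈ range (e + 1), r.choose t := by
  classical
  have h : ∀ S ∈ univ.filter (fun S : Finset (Fin r) => S.card ≤ e), S.card ∈ range (e + 1) := by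
    intro S hS
    rw [mem_filter] at hS
    rw [mem_range]
    omega
  rw [card_eq_sum_card_fiberwise h]
  refine sum_congr rfl fun t ht => ?_
  rw [mem_range] at ht
  have h1 : (univ.filter fun S : Finset (Fin r) => S.card ≤ e).filter (fun S => S.card = t) =
      powersetCard t univ := by
    ext S
    rw [mem_filter, mem_filter, mem_powersetCard]
    constructor
    · rintro ⟨_, h3⟩
      exact ⟨subset_univ S, h3⟩
    · rintro ⟨_, h3⟩
      exact ⟨⟨mem_univ S, by omega⟩, h3⟩
  rw [h1, card_powersetCard, card_univ, Fintype.card_fin]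

/-- A labelling of the points of `J` by the vertices of the cube, `P` being labelled by zero. -/
theorem exists_labels {r k e : ℕ} (J : Finset (Fin k)) {P : Fin k} (hP : P ∈ J)
    (hJ : J.card ≤ ∑ t ∈ range (e + 1), r.choose t) :
    ∃ b : Fin k → Fin r → Fin 2, (∀ i ∈ J, ∀ j ∈ J, b i = b j → i = j) ∧ gsum (b P) = 0 ∧
      ∀ i, gsum (b i) ≤ e := by
  classical
  set 𝒮 := univ.filter fun S : Finset (Fin r) => S.card ≤ e with h𝒮
  have hcard : J.card ≤ 𝒮.card := by
    rw [h𝒮, card_small]
    exact hJ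
  obtain ⟨f, hf, hinj⟩ : ∃ f : Fin k → Finset (Fin r), (∀ i ∈ J, f i ∈ 𝒮) ∧
      Set.InjOn f J := by
    have h1 : (J : Set (Fin k)).encard ≤ (𝒮 : Set (Finset (Fin r))).encard := by
      rw [Set.encard_coe_eq_coe_finsetCard, Set.encard_coe_eq_coe_finsetCard]
      exact_mod_cast hcard
    obtain ⟨f, hf1, hf2⟩ := Set.Finite.exists_injOn_of_encard_le (J.finite_toSet) h1
    exact ⟨f, fun i hi => by simpa using hf1 hi, hf2⟩
  have hempty : (∅ : Finset (Fin r)) ∈ 𝒮 := by
    rw [h𝒮, mem_filter]
    exact ⟨mem_univ _, by simp⟩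
  set g : Fin k → Finset (Fin r) := fun i => if i ∈ J then Equiv.swap (f P) ∅ (f i) else ∅ with hg
  have hgm : ∀ i, g i ∈ 𝒮 := by
    intro i
    rw [hg]
    dsimp only
    split_ifs with hi
    · rcases eq_or_ne (f i) (f P) with h2 | h2
      · rw [h2, Equiv.swap_apply_left]
        exact hempty
      · rcases eq_or_ne (f i) ∅ with h3 | h3
        · rw [h3, Equiv.swap_apply_right]
          exact hf P hP
        · rw [Equiv.swap_apply_of_ne_of_ne h2 h3]
          exact hf i hi
    · exact hempty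
  refine ⟨fun i => ind (g i), fun i hi j hj hij => ?_, ?_, fun i => ?_⟩
  · have h2 := ind_injective hij
    rw [hg] at h2
    dsimp only at h2
    rw [if_pos hi, if_pos hj] at h2
    exact hinj hi hj ((Equiv.swap (f P) ∅).injective h2)
  · rw [gsum_ind, hg]
    dsimp only
    rw [if_pos hP, Equiv.swap_apply_left, card_empty]
  · rw [gsum_ind]
    have h2 := hgm i
    rw [h𝒮, mem_filter] at h2
    exact h2.2

/-- Multiplicity `i` at `P`, `q` at the other points of `J`. -/
def WW {k : ℕ} (J : Finset (Fin k)) (P : Fin k) (q i : ℕ) : Fin k → ℕ :=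
  fun l => if l ∈ J then (if l = P then i else q) else 0

theorem sum_WW {r k : ℕ} (J : Finset (Fin k)) {P : Fin k} (hP : P ∈ J) (q i : ℕ) :
    ∑ l, (WW J P q i l + (r + 1) - 1).choose (r + 1) =
      (i + (r + 1) - 1).choose (r + 1) +
        ∑ l, ((if l ∈ J ∧ l ≠ P then q else 0) + (r + 1) - 1).choose (r + 1) := by
  classical
  rw [← add_sum_erase univ _ (mem_univ P), ← add_sum_erase univ (fun l =>
    ((if l ∈ J ∧ l ≠ P then q else 0) + (r + 1) - 1).choose (r + 1)) (mem_univ P)]
  have h1 : WW J P q i P = i := by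
    unfold WW
    rw [if_pos hP, if_pos rfl]
  have h2 : (if P ∈ J ∧ P ≠ P then q else 0) = 0 := if_neg fun h => h.2 rfl
  have h3 : ∑ l ∈ univ.erase P, (WW J P q i l + (r + 1) - 1).choose (r + 1) =
      ∑ l ∈ univ.erase P, ((if l ∈ J ∧ l ≠ P then q else 0) + (r + 1) - 1).choose (r + 1) := by
    refine sum_congr rfl fun l hl => ?_
    have hlP : l ≠ P := ne_of_mem_erase hl
    congr 2
    congr 1
    unfold WW
    by_cases hlJ : l ∈ J
    · rw [if_pos hlJ, if_neg hlP, if_pos ⟨hlJ, hlP⟩]
    · rw [if_neg hlJ, if_neg fun h => hlJ h.1]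
  rw [h1, h2, h3, Nat.choose_eq_zero_of_lt (by omega : 0 + (r + 1) - 1 < r + 1), zero_add]

/-- Raising the multiplicity of `P` from `i` to `i + 1` imposes `binom(i + r, r)` conditions. -/
theorem grid_step (r t k c : ℕ) (J : Finset (Fin k)) {P : Fin k} (hP : P ∈ J)
    (hJ : J.card ≤ ∑ u ∈ range (c + 2 + 1), (r + 1).choose u) (q i : ℕ) (hq : 2 * q + c ≤ t)
    (hi : i ≤ q) :
    generalDim (r + 1) t (WW J P q i) =
      generalDim (r + 1) t (WW J P q (i + 1)) + (i + r).choose r := by
  obtain ⟨b, hb1, hb2, hb3⟩ := exists_labels J hP hJ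
  have key : ∀ i ≤ q + 1, generalDim (r + 1) t (WW J P q i) +
      ∑ l, (WW J P q i l + (r + 1) - 1).choose (r + 1) = (t + (r + 1)).choose (r + 1) := by
    intro i hi
    refine grid_general (r + 1) t k (by omega) _ b J hb1 (fun l hl => ?_) fun l hl => ?_
    · unfold WW
      rw [if_pos hl]
      by_cases hlP : l = P
      · rw [if_pos hlP, hlP, hb2]
        omega
      · rw [if_neg hlP]
        have := hb3 l
        omega
    · unfold WW
      rw [if_neg hl]
  have h1 := key i (by omega)
  have h2 := key (i + 1) (by omega)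
  rw [sum_WW J hP] at h1 h2
  have h3 : (i + 1 + (r + 1) - 1).choose (r + 1) =
      (i + r).choose r + (i + (r + 1) - 1).choose (r + 1) := by
    have h4 : i + 1 + (r + 1) - 1 = (i + r) + 1 := by omega
    have h5 : i + (r + 1) - 1 = i + r := by omega
    rw [h4, h5, Nat.choose_succ_succ']
  omega

end Pool.Agent.H74.CT
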