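import Pool.Agent.H74.CT.Node

/-!
# Independence of products of linear forms modulo higher order vanishing
-/

namespace Pool.Agent.H74.CT

open MvPolynomial Pool.Agent.H18.Fat Pool.Agent.H22.LU

theorem shift_zero' {n : ℕ} (F : MvPolynomial (Fin n) ℂ) : shift 0 F = F := by
  unfold shift
  have h : (fun j : Fin n => X j + C ((0 : Fin n → ℂ) j)) = (X : Fin n → MvPolynomial (Fin n) ℂ) := by
    funext j
    simp
  rw [h]
  exact aeval_X_left_apply F

theorem eval_aeval {n k : ℕ} (σ : Fin n → MvPolynomial (Fin k) ℂ) (x : Fin k → ℂ)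
    (F : MvPolynomial (Fin n) ℂ) :
    eval x (aeval σ F) = eval (fun j => eval x (σ j)) F := by
  induction F using MvPolynomial.induction_on with
  | C a => simp
  | add p q hp hq => rw [map_add, map_add, map_add, hp, hq]
  | mul_X p i hp => rw [map_mul, map_mul, map_mul, hp, aeval_X, eval_X]

theorem coeff_mono_mul {k e : ℕ} (c c0 : mons k e) (Q : MvPolynomial (Fin k) ℂ) :
    coeff c0.1 (monomial c.1 (1 : ℂ) * Q) = if c = c0 then coeff 0 Q else 0 := by
  rw [coeff_monomial_mul', one_mul]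
  have h1 := mem_mons.1 c.2
  have h2 := mem_mons.1 c0.2
  by_cases h : c = c0
  · subst h
    rw [if_pos le_rfl, if_pos rfl, tsub_self]
  · rw [if_neg h, if_neg]
    intro hle
    apply h
    have h3 : c.1 + (c0.1 - c.1) = c0.1 := add_tsub_cancel_of_le hle
    have h4 := congrArg Finsupp.degree h3
    rw [map_add, h1, h2] at h4
    have h5 : (c0.1 - c.1).degree = 0 := by omega
    rw [Finsupp.degree_eq_zero_iff] at h5
    rw [h5, add_zero] at h3
    exact Subtype.ext h3

theorem indep_core {r e g : ℕ} {q : Fin (r + 1) → ℂ} {G : MvPolynomial (Fin (r + 1)) ℂ}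
    (hG : ¬ VanishesToOrder G q (g + 1)) (Xs : Fin r → MvPolynomial (Fin (r + 1)) ℂ)
    (H : mons r e → MvPolynomial (Fin (r + 1)) ℂ) (hH : ∀ c, eval q (H c) ≠ 0)
    (σ : Fin (r + 1) → MvPolynomial (Fin r) ℂ) (hσ : ∀ a, eval 0 (σ a) = q a)
    (hX : ∀ u, aeval σ (Xs u) = X u) (a : mons r e → ℂ)
    (hvan : VanishesToOrder (∑ c, a c • (G * ((∏ u, Xs u ^ (c.1 u)) * H c))) q (g + e + 1)) :
    a = 0 := by
  classical
  have h1 : ∑ c, a c • (G * ((∏ u, Xs u ^ (c.1 u)) * H c)) =
      G * ∑ c, a c • ((∏ u, Xs u ^ (c.1 u)) * H c) := by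
    rw [Finset.mul_sum]
    refine Finset.sum_congr rfl fun c _ => ?_
    rw [mul_smul_comm]
  rw [h1] at hvan
  have h2 := vanishes_of_mul hG hvan
  have h3 : g + e + 1 - g = e + 1 := by omega
  rw [h3] at h2
  have h4 := vanishes_aeval (q' := 0) σ hσ h2
  have h5 : aeval σ (∑ c, a c • ((∏ u, Xs u ^ (c.1 u)) * H c)) =
      ∑ c, a c • (monomial c.1 (1 : ℂ) * aeval σ (H c)) := by
    rw [map_sum]
    refine Finset.sum_congr rfl fun c _ => ?_
    rw [map_smul, map_mul, map_prod]
    congr 2
    rw [monomial_eq, C_1, one_mul, Finsupp.prod_fintype _ _ (fun _ => pow_zero _)]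
    refine Finset.prod_congr rfl fun u _ => ?_
    rw [map_pow, hX]
  rw [h5] at h4
  funext c0
  have h6 := h4 c0.1 (by rw [mem_mons.1 c0.2]; omega)
  rw [shift_zero', coeff_sum] at h6
  have h7 : ∀ c : mons r e, coeff c0.1 (a c • (monomial c.1 (1 : ℂ) * aeval σ (H c))) =
      if c = c0 then a c0 * coeff 0 (aeval σ (H c0)) else 0 := by
    intro c
    rw [coeff_smul, coeff_mono_mul, smul_eq_mul]
    by_cases h : c = c0
    · rw [if_pos h, if_pos h, h]
    · rw [if_neg h, if_neg h, mul_zero]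
  rw [Finset.sum_congr rfl fun c _ => h7 c, Finset.sum_ite_eq' Finset.univ c0
    (fun _ => a c0 * coeff 0 (aeval σ (H c0))), if_pos (Finset.mem_univ c0)] at h6
  rcases mul_eq_zero.1 h6 with h8 | h8
  · exact h8
  · exfalso
    apply hH c0
    have h9 : eval (0 : Fin r → ℂ) (aeval σ (H c0)) = coeff 0 (aeval σ (H c0)) := by
      rw [← constantCoeff_eq]
      exact congrFun (congrArg DFunLike.coe (eval_zero)) _
    rw [h8, eval_aeval] at h9
    rw [← h9]
    congr 2
    funext j
    exact (hσ j).symm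

theorem finrank_stage {V : Type*} [AddCommGroup V] [Module ℂ V] (U W : Submodule ℂ V)
    [FiniteDimensional ℂ U] (hWU : W ≤ U) {κ : Type*} [Fintype κ] (F : κ → V)
    (hF : ∀ c, F c ∈ U) (hind : ∀ a : κ → ℂ, (∑ c, a c • F c) ∈ W → a = 0) :
    Module.finrank ℂ W + Fintype.card κ ≤ Module.finrank ℂ U := by
  have : FiniteDimensional ℂ W := Submodule.finiteDimensional_of_le hWU
  let f : ((κ → ℂ) × W) →ₗ[ℂ] U :=
    { toFun := fun x => ⟨∑ c, x.1 c • F c + x.2.1, U.add_mem
        (U.sum_mem fun c _ => U.smul_mem _ (hF c)) (hWU x.2.2)⟩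
      map_add' := by
        intro x y
        apply Subtype.ext
        simp only [Prod.fst_add, Prod.snd_add, Pi.add_apply, add_smul, Finset.sum_add_distrib,
          Submodule.coe_add]
        abel
      map_smul' := by
        intro t x
        apply Subtype.ext
        simp only [Prod.smul_fst, Prod.smul_snd, Pi.smul_apply, smul_eq_mul, mul_smul,
          Submodule.coe_smul, RingHom.id_apply, smul_add, Finset.smul_sum] }
  have hf : Function.Injective f := by
    rw [← LinearMap.ker_eq_bot, LinearMap.ker_eq_bot']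
    rintro ⟨a, w⟩ h
    have h1 : ∑ c, a c • F c + w.1 = 0 := congrArg Subtype.val h
    have h2 : ∑ c, a c • F c = -w.1 := eq_neg_of_add_eq_zero_left h1
    have h3 := hind a (by rw [h2]; exact W.neg_mem w.2)
    subst h3
    have h4 : w.1 = 0 := by simpa using h1
    have h5 : w = 0 := Subtype.ext h4
    rw [h5]
    rfl
  have h1 := LinearMap.finrank_le_finrank_of_injective hf
  rw [Module.finrank_prod, Module.finrank_fintype_fun_eq_card] at h1
  omega

theorem fin_fatForms (r d : ℕ) {ι : Type*} (p : ι → Fin (r + 1) → ℂ) (m : ι → ℕ) :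
    FiniteDimensional ℂ (fatForms r d p m) := by
  exact Submodule.finiteDimensional_of_le (S₂ := LinearMap.range (toPoly (r + 1) d)) fun F hF =>
    ⟨fun α => coeff α.1 F, exists_toPoly hF.1⟩

end Pool.Agent.H74.CT
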