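import Pool.Agent.H74.CT.Grid

/-!
# Multiplication by a fixed form
-/

namespace Pool.Agent.H74.CT

open MvPolynomial Pool.Agent.H18.Fat Pool.Agent.H22.LU

theorem mult_stage {r t j e : ℕ} {ι : Type*} (p : ι → Fin (r + 1) → ℂ) (P : ι)
    {G : MvPolynomial (Fin (r + 1)) ℂ} (hG : G.IsHomogeneous e) (hj : e + t = j) (μ : ℕ)
    (hP : VanishesToOrder G (p P) μ) (hPn : ¬ VanishesToOrder G (p P) (μ + 1))
    (w w' m m' : ι → ℕ) (hw : ∀ l, l ≠ P → w l = w' l) (hwP : w' P = w P + 1)
    (hm : ∀ l, l ≠ P → m l = m' l) (hmP : m' P = m P + 1) (hmw : m P = w P + μ)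
    (hGl : ∀ l, l ≠ P → VanishesToOrder G (p l) (m l - w l)) :
    Module.finrank ℂ (fatForms r j p m') + Module.finrank ℂ (fatForms r t p w) ≤
      Module.finrank ℂ (fatForms r j p m) + Module.finrank ℂ (fatForms r t p w') := by
  have i1 := fin_fatForms r j p m
  have i2 := fin_fatForms r j p m'
  have i3 := fin_fatForms r t p w
  have i4 := fin_fatForms r t p w'
  have hGR : ∀ R ∈ fatForms r t p w, G * R ∈ fatForms r j p m := by
    intro R hR
    refine ⟨hj ▸ hG.mul hR.1, fun l => ?_⟩
    by_cases hl : l = P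
    · subst hl
      refine van_mono (van_mul hP (hR.2 l)) ?_
      omega
    · refine van_mono (van_mul (hGl l hl) (hR.2 l)) ?_
      omega
  have hle : fatForms r j p m' ≤ fatForms r j p m := by
    intro F hF
    refine ⟨hF.1, fun l => van_mono (hF.2 l) ?_⟩
    by_cases hl : l = P
    · subst hl
      omega
    · rw [hm l hl]
  let f : (fatForms r t p w × fatForms r j p m') →ₗ[ℂ] fatForms r j p m :=
    { toFun := fun x => ⟨G * x.1.1 + x.2.1, (fatForms r j p m).add_mem
        (hGR _ x.1.2) (hle x.2.2)⟩
      map_add' := by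
        intro x y
        apply Subtype.ext
        simp only [Prod.fst_add, Prod.snd_add, Submodule.coe_add, mul_add]
        abel
      map_smul' := by
        intro c x
        apply Subtype.ext
        simp only [Prod.smul_fst, Prod.smul_snd, Submodule.coe_smul, RingHom.id_apply, smul_add,
          mul_smul_comm] }
  have hker : ∀ x ∈ LinearMap.ker f, x.1.1 ∈ fatForms r t p w' := by
    intro x hx
    rw [LinearMap.mem_ker] at hx
    have h1 : G * x.1.1 + x.2.1 = 0 := congrArg Subtype.val hx
    have h2 : G * x.1.1 = -x.2.1 := eq_neg_of_add_eq_zero_left h1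
    refine ⟨x.1.2.1, fun l => ?_⟩
    by_cases hl : l = P
    · subst hl
      have h3 := ((fatForms r j p m').neg_mem x.2.2).2 l
      rw [← h2] at h3
      have h4 := vanishes_of_mul hPn h3
      refine van_mono h4 ?_
      omega
    · rw [← hw l hl]
      exact x.1.2.2 l
  let g : LinearMap.ker f →ₗ[ℂ] fatForms r t p w' :=
    { toFun := fun x => ⟨x.1.1.1, hker x.1 x.2⟩
      map_add' := fun x y => rfl
      map_smul' := fun c x => rfl }
  have hg : Function.Injective g := by
    intro x y hxy
    have h1 : x.1.1.1 = y.1.1.1 := by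
      have h0 : (g x).1 = (g y).1 := by rw [hxy]
      exact h0
    have h2 : G * x.1.1.1 + x.1.2.1 = 0 := by
      have h0 : (f x.1).1 = 0 := by
        rw [LinearMap.mem_ker.1 x.2]
        rfl
      exact h0
    have h3 : G * y.1.1.1 + y.1.2.1 = 0 := by
      have h0 : (f y.1).1 = 0 := by
        rw [LinearMap.mem_ker.1 y.2]
        rfl
      exact h0
    rw [h1, ← h3] at h2
    have h4 : x.1.2.1 = y.1.2.1 := add_left_cancel h2
    apply Subtype.ext
    apply Prod.ext
    · exact Subtype.ext h1
    · exact Subtype.ext h4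
  have h1 := LinearMap.finrank_le_finrank_of_injective hg
  have h2 := LinearMap.finrank_range_add_finrank_ker f
  rw [Module.finrank_prod] at h2
  have h3 : Module.finrank ℂ (LinearMap.range f) ≤ Module.finrank ℂ (fatForms r j p m) :=
    Submodule.finrank_le _
  omega

end Pool.Agent.H74.CT
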