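import Pool.Agent.H74.CT.Numer

/-!
# Any number of large multiplicities with sum at most `r d - D` and pair sums at most `d + 1`
-/

namespace Pool.Agent.H74.CT

open Pool.Agent.H18.Fat Pool.Agent.H18.Ub Finset

theorem generalDim_ge {r : ℕ} (hr : 1 ≤ r) (d : ℕ) {k : ℕ} (m : Fin k → ℕ) :
    ((d + r).choose r : ℤ) - ∑ i, ((m i + r - 1).choose r : ℤ) ≤ generalDim r d m := by
  obtain ⟨p, hp1, hp2⟩ := Pool.Agent.H18.Cub.exists_of_general
    ((generalDim_spec r d m).and (Pool.Agent.H18.Pr.general_ne_zero r k))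
  have := finrank_fatForms_ge (d := d) hr hp2 m
  rw [hp1] at this
  exact this

/-- The explicit constant. -/
def DD (r M : ℕ) : ℕ := 10 ^ 6 * r ^ 3 * M ^ 8 * (M + r - 1).choose r ^ 3

theorem DD_consts (s M : ℕ) (hM : 1 ≤ M) :
    4 * (s + 2) ^ 2 * (66 * M ^ 3 * (M + (s + 2) - 1).choose (s + 2) + 1) ≤ DD (s + 2) M ∧
    10 * (16 * M ^ 2 * (M + (s + 2) - 1).choose (s + 2)) * (s + 2) ^ 3 *
      (66 * M ^ 3 * (M + (s + 2) - 1).choose (s + 2) + 1) ^ 2 ≤ DD (s + 2) M ∧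
    1 ≤ (M + (s + 2) - 1).choose (s + 2) := by
  have hB : 1 ≤ (M + (s + 2) - 1).choose (s + 2) := Nat.choose_pos (by omega)
  unfold DD
  generalize (M + (s + 2) - 1).choose (s + 2) = B at hB ⊢
  have hC : 66 * M ^ 3 * B + 1 ≤ 67 * M ^ 3 * B := by
    have : 1 ≤ M ^ 3 * B := Nat.one_le_iff_ne_zero.2 (by positivity)
    nlinarith
  refine ⟨?_, ?_, hB⟩
  · calc 4 * (s + 2) ^ 2 * (66 * M ^ 3 * B + 1) ≤ 4 * (s + 2) ^ 2 * (67 * M ^ 3 * B) :=
          Nat.mul_le_mul_left _ hC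
      _ = (268 * (s + 2) ^ 2 * M ^ 3 * B) * 1 := by ring
      _ ≤ (268 * (s + 2) ^ 2 * M ^ 3 * B) * ((s + 2) * M ^ 5 * B ^ 2) :=
          Nat.mul_le_mul_left _ (Nat.one_le_iff_ne_zero.2 (by positivity))
      _ = 268 * ((s + 2) ^ 3 * M ^ 8 * B ^ 3) := by ring
      _ ≤ 10 ^ 6 * ((s + 2) ^ 3 * M ^ 8 * B ^ 3) := Nat.mul_le_mul_right _ (by norm_num)
      _ = _ := by ring
  · calc 10 * (16 * M ^ 2 * B) * (s + 2) ^ 3 * (66 * M ^ 3 * B + 1) ^ 2 ≤
        10 * (16 * M ^ 2 * B) * (s + 2) ^ 3 * (67 * M ^ 3 * B) ^ 2 :=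
          Nat.mul_le_mul_left _ (Nat.pow_le_pow_left hC 2)
      _ = 718240 * ((s + 2) ^ 3 * M ^ 8 * B ^ 3) := by ring
      _ ≤ 10 ^ 6 * ((s + 2) ^ 3 * M ^ 8 * B ^ 3) := Nat.mul_le_mul_right _ (by norm_num)
      _ = _ := by ring

theorem num_ineq (s E C : ℕ) (hE : 16 ≤ E) :
    E * C * (s + 2) + 8 * E * (s + 2) ^ 3 * (C + 1) ^ 2 + 8 * (s + 2) ^ 3 ≤
      10 * E * (s + 2) ^ 3 * (C + 1) ^ 2 := by
  have h6 : E * C * (s + 2) ≤ E * (s + 2) ^ 3 * (C + 1) ^ 2 := by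
    calc E * C * (s + 2) = E * (s + 2) * C := by ring
      _ ≤ E * (s + 2) * ((s + 2) ^ 2 * (C + 1) ^ 2) := by
        refine Nat.mul_le_mul_left _ ?_
        have h7 : C ≤ (C + 1) ^ 2 := by nlinarith
        calc C ≤ 1 * (C + 1) ^ 2 := by rw [one_mul]; exact h7
          _ ≤ _ := Nat.mul_le_mul_right _ (Nat.one_le_iff_ne_zero.2 (by positivity))
      _ = _ := by ring
  have h8 : 8 * (s + 2) ^ 3 ≤ E * (s + 2) ^ 3 * (C + 1) ^ 2 := by
    calc 8 * (s + 2) ^ 3 ≤ E * (s + 2) ^ 3 := Nat.mul_le_mul_right _ (by omega)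
      _ = E * (s + 2) ^ 3 * 1 := by ring
      _ ≤ _ := Nat.mul_le_mul_left _ (Nat.one_le_iff_ne_zero.2 (by positivity))
  have h9 : 8 * E * (s + 2) ^ 3 * (C + 1) ^ 2 = 8 * (E * (s + 2) ^ 3 * (C + 1) ^ 2) := by ring
  have h10 : 10 * E * (s + 2) ^ 3 * (C + 1) ^ 2 = 10 * (E * (s + 2) ^ 3 * (C + 1) ^ 2) := by ring
  rw [h9, h10]
  omega

/-- Lower bound for the general dimension. -/
theorem dim_ge (s j k : ℕ) (m : Fin k → ℕ) (J : Finset (Fin k)) :
    (j + (s + 2)).choose (s + 2) ≤ (generalDim (s + 2) j fun i => if i ∈ J then m i else 0) +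
      ∑ i ∈ J, (m i + (s + 2) - 1).choose (s + 2) := by
  have h1 := generalDim_ge (r := s + 2) (by omega) j
    (fun i => if i ∈ J then m i else 0)
  have h2 : ∑ i, ((((if i ∈ J then m i else 0) + (s + 2) - 1).choose (s + 2) : ℕ) : ℤ) =
      ((∑ i ∈ J, (m i + (s + 2) - 1).choose (s + 2) : ℕ) : ℤ) := by
    rw [← Nat.cast_sum]
    congr 1
    rw [← sum_filter_add_sum_filter_not univ (fun i => i ∈ J)]
    have h3 : ∑ i ∈ univ.filter (fun i => i ∉ J),
        ((if i ∈ J then m i else 0) + (s + 2) - 1).choose (s + 2) = 0 := by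
      refine sum_eq_zero fun i hi => ?_
      rw [if_neg (mem_filter.1 hi).2, Nat.choose_eq_zero_of_lt (by omega)]
    have h4 : univ.filter (fun i => i ∈ J) = J := by
      ext i
      simp
    rw [h3, add_zero, h4]
    exact sum_congr rfl fun i hi => by rw [if_pos hi]
  rw [h2] at h1
  omega

/-- Main theorem of the module. -/
theorem slow_main (r M : ℕ) (hr : 2 ≤ r) (hM : 1 ≤ M) (k d : ℕ) (m : Fin k → ℕ)
    (J : Finset (Fin k)) (hJ : ∀ i, i ∉ J → m i ≤ M) (hDd : DD r M ≤ d)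
    (h1 : ∀ i ∈ J, m i + DD r M ≤ d) (h2 : ∑ i ∈ J, m i + DD r M ≤ r * d)
    (h3 : ∀ a ∈ J, ∀ b ∈ J, a ≠ b → m a + m b ≤ d + 1) :
    ForGeneralPoints r k fun p => ImposesMaximalConditions r d p m := by
  classical
  obtain ⟨s, rfl⟩ : ∃ s, r = s + 2 := ⟨r - 2, by omega⟩
  obtain ⟨hc1, hc2, hB⟩ := DD_consts s M hM
  set D := DD (s + 2) M with hD
  set B := (M + (s + 2) - 1).choose (s + 2) with hBdef
  set C := 66 * M ^ 3 * B with hC
  set E := 16 * M ^ 2 * B with hE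
  have hC1 : 1 ≤ C := Nat.one_le_iff_ne_zero.2 (by positivity)
  have hE1 : 1 ≤ E := Nat.one_le_iff_ne_zero.2 (by positivity)
  have hD0 : 1 ≤ D := by
    refine le_trans ?_ hc1
    exact Nat.one_le_iff_ne_zero.2 (by positivity)
  have hs4 : 4 ≤ (s + 2) ^ 2 := by nlinarith
  have hCD : C + 1 ≤ D := by nlinarith
  have hmono : ∀ δ ≤ C + 1, 4 * (s + 2) ^ 2 * δ ≤ D := fun δ hδ =>
    (Nat.mul_le_mul_left _ hδ).trans hc1
  set h : ℕ → ℕ := fun j => generalDim (s + 2) j fun i => if i ∈ J then m i else 0 with hh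
  set S := ∑ i ∈ J, (m i + (s + 2) - 1).choose (s + 2) with hS
  set N1 := (d + (s + 1)).choose (s + 1) with hN1
  set N0 := (d + s).choose s with hN0
  -- upper bounds
  obtain ⟨e0, he0, hu0⟩ := near (hmono 0 (by omega)) hD0 hDd h1 h2 h3
  obtain ⟨e1, he1, hu1⟩ := near (hmono 1 (by omega)) hD0 hDd h1 h2 h3
  obtain ⟨e2, he2, hu2⟩ := near (hmono (C + 1) le_rfl) hD0 hDd h1 h2 h3
  have he0' : e0 = 0 := by
    have : D * e0 ≤ 0 := by
      refine he0.trans (le_of_eq ?_)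
      ring
    have h4 : D * e0 = 0 := by omega
    rcases Nat.mul_eq_zero.1 h4 with h5 | h5
    · omega
    · exact h5
  subst he0'
  change h (d - 0) + S ≤ _ at hu0
  change h (d - 1) + S ≤ _ at hu1
  change h (d - (C + 1)) + S ≤ _ at hu2
  have hl : ∀ j, (j + (s + 2)).choose (s + 2) ≤ h j + S := fun j => dim_ge s j k m J
  have hl0 := hl d
  have hl1 := hl (d - 1)
  have hl2 := hl (d - C)
  rw [Nat.sub_zero, Nat.add_zero] at hu0
  have hhd : h d + S = (d + (s + 2)).choose (s + 2) := le_antisymm hu0 hl0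
  -- Pascal
  have hP1 : (d + (s + 2)).choose (s + 2) = N1 + (d - 1 + (s + 2)).choose (s + 2) := by
    have h4 : d + (s + 2) = (d + (s + 1)) + 1 := by omega
    have h5 : d - 1 + (s + 2) = d + (s + 1) := by omega
    rw [h4, Nat.choose_succ_succ', h5]
  have hP2 : (d - C + (s + 2)).choose (s + 2) = (d - C + (s + 1)).choose (s + 1) +
      (d - (C + 1) + (s + 2)).choose (s + 2) := by
    have h4 : d - C + (s + 2) = (d - C + (s + 1)) + 1 := by omega
    have h5 : d - (C + 1) + (s + 2) = d - C + (s + 1) := by omega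
    rw [h4, Nat.choose_succ_succ', h5]
  have hdrop : N1 ≤ (d - C + (s + 1)).choose (s + 1) + C * N0 := choose_drop s d C (by omega)
  have hN : (d + (s + 1)) * N0 = N1 * (s + 1) := Nat.add_one_mul_choose_eq (d + s) s
  have h16 : 16 ≤ E := by
    have h4 : 1 ≤ M ^ 2 * B := Nat.one_le_iff_ne_zero.2 (by positivity)
    rw [hE, Nat.mul_assoc]
    omega
  -- the numerical condition
  have hkey : E * (C * N0 + e2) + e1 ≤ N1 := by
    have h4 : D * N0 ≤ N1 * (s + 2) := by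
      calc D * N0 ≤ (d + (s + 1)) * N0 := Nat.mul_le_mul_right _ (by omega)
        _ = N1 * (s + 1) := hN
        _ ≤ N1 * (s + 2) := Nat.mul_le_mul_left _ (by omega)
    have h5 : D * (E * (C * N0 + e2) + e1) ≤ D * N1 := by
      calc D * (E * (C * N0 + e2) + e1) = E * C * (D * N0) + E * (D * e2) + D * e1 := by ring
        _ ≤ E * C * (N1 * (s + 2)) + E * (8 * (s + 2) ^ 3 * (C + 1) ^ 2 * N1) +
            8 * (s + 2) ^ 3 * 1 ^ 2 * N1 :=
          Nat.add_le_add (Nat.add_le_add (Nat.mul_le_mul_left _ h4) (Nat.mul_le_mul_left _ he2)) he1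
        _ = (E * C * (s + 2) + 8 * E * (s + 2) ^ 3 * (C + 1) ^ 2 + 8 * (s + 2) ^ 3) * N1 := by ring
        _ ≤ (10 * E * (s + 2) ^ 3 * (C + 1) ^ 2) * N1 := by
          exact Nat.mul_le_mul_right _ (num_ineq s E C h16)
        _ ≤ D * N1 := Nat.mul_le_mul_right _ hc2
    exact Nat.le_of_mul_le_mul_left h5 hD0
  have hslow : E * ((h d - h (d - 1)) - (h (d - C) - h (d - C - 1))) ≤ h d - h (d - 1) := by
    have h4 : d - C - 1 = d - (C + 1) := by omega
    rw [h4]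
    have h5 : (h d - h (d - 1)) - (h (d - C) - h (d - (C + 1))) ≤ C * N0 + e2 := by omega
    have h6 : N1 ≤ (h d - h (d - 1)) + e1 := by omega
    have h7 := Nat.mul_le_mul_left E h5
    omega
  have hfin := dim_of_slow (s + 2) (by omega) M hM k d m J hJ h (fun _ => rfl) hslow
  refine hfin.mono fun p hp => ?_
  unfold ImposesMaximalConditions
  rw [hp]
  congr 1
  have h4 : ∑ i, ((m i + (s + 2) - 1).choose (s + 2) : ℤ) = (S : ℤ) +
      ∑ i ∈ univ.filter (fun i => i ∉ J), ((m i + (s + 2) - 1).choose (s + 2) : ℤ) := by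
    rw [← sum_filter_add_sum_filter_not univ (fun i => i ∈ J), hS]
    congr 1
    have h5 : univ.filter (fun i => i ∈ J) = J := by
      ext i
      simp
    rw [h5]
    push_cast
    rfl
  rw [h4]
  have h5 : ((h d : ℕ) : ℤ) + (S : ℤ) = ((d + (s + 2)).choose (s + 2) : ℤ) := by
    exact_mod_cast hhd
  linarith

end Pool.Agent.H74.CT
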