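import Pool.Agent.H74.CT.Two
import Pool.Agent.H74.CT.Slow

/-!
# The dimension in the degrees slightly below `d`: fewer than `2 ^ r` points
-/

namespace Pool.Agent.H74.CT

open MvPolynomial Pool.Agent.H18.Fat Pool.Agent.H18.Ub Pool.Agent.H22.LU Finset

/-- The number of the extra multiplicities. -/
def kap (s C : ℕ) : ℕ := C + (s + 2)

/-- Half the degree of the extra form. -/
def qq (s C : ℕ) : ℕ := (s + 2) * 2 ^ (s + 2) * (kap s C + (s + 2))

/-- The error. -/
def WE (s C : ℕ) : ℕ := 2 ^ (s + 2) * ((qq s C + kap s C) * (2 * qq s C))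

theorem near2 (s C k d D δ : ℕ) (m : Fin k → ℕ) (J : Finset (Fin k)) (hδ : δ ≤ C + 1)
    (hD : 4 * (3 * qq s C + kap s C + s + δ + 1) ≤ D) (hDd : D ≤ d)
    (h1 : ∀ i ∈ J, m i + D ≤ d) (h2 : J.card < 2 ^ (s + 2))
    (h3 : ∀ a ∈ J, ∀ b ∈ J, a ≠ b → m a + m b ≤ d + 1) :
    (generalDim (s + 2) (d - δ) fun i => if i ∈ J then m i else 0) +
        ∑ i ∈ J, (m i + (s + 2) - 1).choose (s + 2) ≤
      (d - δ + (s + 2)).choose (s + 2) + WE s C * (d + s).choose s := by
  classical
  set κ := kap s C with hκ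
  set q := qq s C with hq
  set ν := q + κ with hν
  have hκ1 : κ = C + (s + 2) := rfl
  have hpos : ∀ m' : Fin k → ℕ, (∀ l, l ∉ J → m' l = 0) → (∀ l, m' l ≤ ν) →
      1 ≤ generalDim (s + 1 + 1) (2 * q) m' := by
    intro m' h0 hm'
    exact generalDim_pos (r := s + 2) (κ := κ) (by omega) J h2 m' h0 hm'
  obtain ⟨p, hp⟩ := exists_gen (s + 1) k d q ν J fun P hP => hpos _ (fun l hl => by
    unfold onu
    rw [if_neg hl]
    split_ifs <;> rfl) fun l => by
    unfold onu
    split_ifs <;> omega
  have hpos1 := hpos (fun l => if l ∈ J then ν else 0) (fun l hl => if_neg hl) fun l => by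
    split_ifs <;> omega
  have hJc : J.card ≤ ∑ u ∈ range (s + 2 + 1), (s + 1 + 1).choose u := by
    have h4 : ∑ u ∈ range (s + 2 + 1), (s + 1 + 1).choose u = 2 ^ (s + 2) :=
      Nat.sum_range_choose (s + 2)
    rw [h4]
    exact h2.le
  set γ : Fin k → ℕ → ℕ := fun P i => if i + ν ≤ m P ∨ 2 * m P ≤ D then 0 else 2 * q with hγ
  have hγi : ∀ P, ∀ i < m P, γ P i ≤ i := by
    intro P i hi
    rw [hγ]
    dsimp only
    split_ifs with h
    · exact Nat.zero_le _
    · push Not at h
      omega
  have hup := upper2 hp (j := d - δ) (Nat.sub_le _ _) m γ (fun P hP => by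
    have := h1 P hP
    omega) fun P hP A hAJ hPA hA hmin i hi => by
    obtain ⟨a₀, ha₀⟩ := hA
    have ha₀P : a₀ ≠ P := fun h => hPA (h ▸ ha₀)
    have e1 := h1 a₀ (hAJ ha₀)
    have e2 := hmin a₀ ha₀
    have e3 := h3 a₀ (hAJ ha₀) P hP ha₀P
    have e4 := h1 P hP
    have hpair : ∀ a ∈ A, ∀ b ∈ A, a ≠ b → (m a - ν) + (m b - ν) ≤ d - δ - 2 * q - s := by
      intro a ha b hb hab
      have f1 := h1 a (hAJ ha)
      have f2 := h1 b (hAJ hb)
      have f3 := h3 a (hAJ ha) b (hAJ hb) hab
      omega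
    by_cases hc : i + ν ≤ m P ∨ 2 * m P ≤ D
    · -- no loss
      obtain ⟨G, hG1, hG2, hG3⟩ := hp.g0 P hP
      have h5 := stage2 hp s hJc hAJ hP hPA m (G := G) (g := 2 * q) (ν := ν) (μ := 0)
        (x := d - δ - 2 * q - s) (i := i) (j := d - δ) hG1
        (fun l hl => hG2 l (hAJ hl) fun h => hPA (h ▸ hl)) (vanishes_zero _ _) hG3 (by omega)
        (Nat.sub_le _ _) hpair (fun a ha => by
          have haP : a ≠ P := fun h => hPA (h ▸ ha)
          have f1 := h1 a (hAJ ha)
          have f2 := hmin a ha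
          have f3 := h3 a (hAJ ha) P hP haP
          rcases hc with hc | hc <;> omega) (by
          rcases hc with hc | hc <;> omega)
      have h6 : γ P i = 0 := by
        rw [hγ]
        dsimp only
        rw [if_pos hc]
      rw [h6, Nat.sub_zero]
      exact h5
    · -- near the boundary
      have h6 : γ P i = 2 * q := by
        rw [hγ]
        dsimp only
        rw [if_neg hc]
      push Not at hc
      obtain ⟨G, μ, hG1, hμ1, hμ2, hG2, hG3, hG4⟩ := exists_G1 J hpos1 p hP
      have h5 := stage2 hp s hJc hAJ hP hPA m (G := G) (g := 2 * q) (ν := ν) (μ := μ)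
        (x := d - δ - 2 * q - s) (i := i - μ) (j := d - δ) hG1
        (fun l hl => hG2 l (hAJ hl)) hG3 hG4 (by omega)
        (Nat.sub_le _ _) hpair (fun a ha => by
          have haP : a ≠ P := fun h => hPA (h ▸ ha)
          have f1 := h1 a (hAJ ha)
          have f2 := hmin a ha
          have f3 := h3 a (hAJ ha) P hP haP
          omega) (by omega)
      have h7 : i - μ + μ = i := by omega
      rw [h7] at h5
      rw [h6]
      refine le_trans (Nat.add_le_add_left (Nat.choose_le_choose _ ?_) _) h5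
      omega
  have h4 : (generalDim (s + 2) (d - δ) fun i => if i ∈ J then m i else 0) ≤
      Module.finrank ℂ (fatForms (s + 2) (d - δ) p fun l => if l ∈ J then m l else 0) :=
    Nat.sInf_le ⟨p, rfl⟩
  have h5 : ∑ i ∈ J, (m i + (s + 2) - 1).choose (s + 2) ≤
      ∑ P ∈ J, ∑ i ∈ range (m P), (i - γ P i + (s + 1)).choose (s + 1) +
      ∑ P ∈ J, ∑ i ∈ range (m P), γ P i * (i + s).choose s := by
    rw [← sum_add_distrib]
    refine sum_le_sum fun P hP => ?_
    rw [← hockey, ← sum_add_distrib]
    refine sum_le_sum fun i hi => ?_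
    rw [mem_range] at hi
    exact choose_drop s i _ (hγi P i hi)
  have h6 : ∑ P ∈ J, ∑ i ∈ range (m P), γ P i * (i + s).choose s ≤
      WE s C * (d + s).choose s := by
    have hinner : ∀ P ∈ J, ∑ i ∈ range (m P), γ P i * (i + s).choose s ≤
        ν * (2 * q * (d + s).choose s) := by
      intro P hP
      have hterm : ∀ i ∈ range (m P), γ P i * (i + s).choose s ≤
          if m P < i + ν then 2 * q * (d + s).choose s else 0 := by
        intro i hi
        rw [mem_range] at hi
        have e4 := h1 P hP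
        by_cases hc : i + ν ≤ m P ∨ 2 * m P ≤ D
        · have h6 : γ P i = 0 := by
            rw [hγ]
            dsimp only
            rw [if_pos hc]
          rw [h6, Nat.zero_mul]
          exact Nat.zero_le _
        · have h6 : γ P i = 2 * q := by
            rw [hγ]
            dsimp only
            rw [if_neg hc]
          push Not at hc
          rw [h6, if_pos hc.1]
          exact Nat.mul_le_mul_left _ (Nat.choose_le_choose _ (by omega))
      refine (sum_le_sum hterm).trans ?_
      rw [← sum_filter, sum_const, smul_eq_mul]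
      refine Nat.mul_le_mul_right _ ?_
      have h5 : (range (m P)).filter (fun i => m P < i + ν) ⊆ Ico (m P - ν) (m P) := by
        intro i hi
        rw [mem_filter, mem_range] at hi
        rw [mem_Ico]
        omega
      refine (card_le_card h5).trans ?_
      rw [Nat.card_Ico]
      omega
    calc ∑ P ∈ J, ∑ i ∈ range (m P), γ P i * (i + s).choose s ≤
        ∑ _P ∈ J, ν * (2 * q * (d + s).choose s) := sum_le_sum hinner
      _ = J.card * (ν * (2 * q * (d + s).choose s)) := by rw [sum_const, smul_eq_mul]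
      _ ≤ 2 ^ (s + 2) * (ν * (2 * q * (d + s).choose s)) := Nat.mul_le_mul_right _ h2.le
      _ = 2 ^ (s + 2) * (ν * (2 * q)) * (d + s).choose s := by ring
      _ = _ := rfl
  have hup' : Module.finrank ℂ (fatForms (s + 2) (d - δ) p fun l => if l ∈ J then m l else 0) +
      ∑ P ∈ J, ∑ i ∈ range (m P), (i - γ P i + (s + 1)).choose (s + 1) ≤
      (d - δ + (s + 2)).choose (s + 2) := hup
  omega

/-- The exact dimension. -/
theorem exact2 (s c k d : ℕ) (m : Fin k → ℕ) (J : Finset (Fin k)) (hcd : c ≤ d)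
    (h1 : ∀ i ∈ J, m i ≤ d + 1)
    (h2 : J.card ≤ ∑ u ∈ range (c + 2 + 1), (s + 2).choose u)
    (h3 : ∀ a ∈ J, ∀ b ∈ J, a ≠ b → m a + m b + c ≤ d) :
    (generalDim (s + 2) d fun i => if i ∈ J then m i else 0) +
        ∑ i ∈ J, (m i + (s + 2) - 1).choose (s + 2) ≤
      (d + (s + 2)).choose (s + 2) := by
  classical
  obtain ⟨p, hp⟩ := exists_gen (s + 1) k d 0 0 J fun P hP => by
    have h4 := generalDim_ge (r := s + 1 + 1) (by omega) (2 * 0) (onu J P 0 0)
    have h5 : ∀ i, ((onu J P 0 0 i + (s + 1 + 1) - 1).choose (s + 1 + 1) : ℤ) = 0 := by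
      intro i
      have h6 : onu J P 0 0 i = 0 := by
        unfold onu
        split_ifs <;> rfl
      rw [h6, Nat.choose_eq_zero_of_lt (by omega)]
      rfl
    rw [sum_congr rfl fun i _ => h5 i, sum_const_zero, Nat.mul_zero, Nat.zero_add,
      Nat.choose_self] at h4
    rw [Nat.mul_zero]
    omega
  have hup := upper2 hp (j := d) le_rfl m (fun _ _ => 0) (fun P hP => h1 P hP)
    fun P hP A hAJ hPA hA hmin i hi => by
    obtain ⟨a₀, ha₀⟩ := hA
    have ha₀P : a₀ ≠ P := fun h => hPA (h ▸ ha₀)
    have e2 := hmin a₀ ha₀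
    have e3 := h3 a₀ (hAJ ha₀) P hP ha₀P
    have h5 := stage2 hp c h2 hAJ hP hPA m (G := 1) (g := 0) (ν := 0) (μ := 0)
      (x := d - c) (i := i) (j := d) (isHomogeneous_one _ _)
      (fun l hl => vanishes_zero _ _) (vanishes_zero _ _) (by
        rw [vanishes_one_iff, map_one]
        exact one_ne_zero) (by omega)
      le_rfl (fun a ha b hb hab => by
        have f3 := h3 a (hAJ ha) b (hAJ hb) hab
        omega) (fun a ha => by
        have haP : a ≠ P := fun h => hPA (h ▸ ha)
        have f2 := hmin a ha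
        have f3 := h3 a (hAJ ha) P hP haP
        omega) (by omega)
    exact h5
  have h4 : (generalDim (s + 2) d fun i => if i ∈ J then m i else 0) ≤
      Module.finrank ℂ (fatForms (s + 2) d p fun l => if l ∈ J then m l else 0) :=
    Nat.sInf_le ⟨p, rfl⟩
  have h5 : ∑ i ∈ J, (m i + (s + 2) - 1).choose (s + 2) =
      ∑ P ∈ J, ∑ i ∈ range (m P), (i - 0 + (s + 1)).choose (s + 1) := by
    refine sum_congr rfl fun P hP => ?_
    rw [← hockey]
    rfl
  rw [h5]
  exact le_trans (Nat.add_le_add_right h4 _) hup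

end Pool.Agent.H74.CT
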