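import Pool.Agent.H22.LU.Mult

/-!
# Points of the rational normal curve and products of linear forms
-/

namespace Pool.Agent.H74.CT

open MvPolynomial Pool.Agent.H18.Fat Pool.Agent.H22.LU

/-- A point of the rational normal curve. -/
noncomputable def pt (r : ℕ) (t : ℂ) : Fin (r + 1) → ℂ := fun a => t ^ (a : ℕ)

/-- The linear form whose restriction to the rational normal curve is `f`. -/
noncomputable def lin (r : ℕ) (f : Polynomial ℂ) : MvPolynomial (Fin (r + 1)) ℂ :=
  ∑ a : Fin (r + 1), C (f.coeff a) * X a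

theorem lin_hom (r : ℕ) (f : Polynomial ℂ) : (lin r f).IsHomogeneous 1 := by
  unfold lin
  refine IsHomogeneous.sum _ _ _ fun a _ => ?_
  simpa using (isHomogeneous_C (Fin (r + 1)) (f.coeff a)).mul (isHomogeneous_X ℂ a)

theorem eval_lin {r : ℕ} {f : Polynomial ℂ} (hf : f.natDegree ≤ r) (t : ℂ) :
    eval (pt r t) (lin r f) = f.eval t := by
  unfold lin pt
  rw [map_sum, Polynomial.eval_eq_sum_range' (n := r + 1) (by omega), Finset.sum_range]
  refine Finset.sum_congr rfl fun a _ => ?_
  rw [map_mul, eval_C, eval_X]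

theorem aeval_lin {r : ℕ} {f : Polynomial ℂ} (hf : f.natDegree ≤ r) :
    aeval (fun a : Fin (r + 1) => (Polynomial.X : Polynomial ℂ) ^ (a : ℕ)) (lin r f) = f := by
  unfold lin
  rw [map_sum]
  conv_rhs => rw [Polynomial.as_sum_range' f (r + 1) (by omega), Finset.sum_range]
  refine Finset.sum_congr rfl fun a _ => ?_
  rw [map_mul, aeval_C, aeval_X, ← Polynomial.C_mul_X_pow_eq_monomial]
  rfl

theorem van_mono {n : ℕ} {F : MvPolynomial (Fin n) ℂ} {q : Fin n → ℂ} {a b : ℕ}
    (h : VanishesToOrder F q a) (hb : b ≤ a) : VanishesToOrder F q b :=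
  fun β hβ => h β (lt_of_lt_of_le hβ hb)

theorem van_mul {n : ℕ} {F G : MvPolynomial (Fin n) ℂ} {q : Fin n → ℂ} {a b : ℕ}
    (hF : VanishesToOrder F q a) (hG : VanishesToOrder G q b) :
    VanishesToOrder (F * G) q (a + b) := by
  rw [vanishesToOrder_iff_mem_ideal_pow] at *
  rw [pow_add]
  exact Ideal.mul_mem_mul hF hG

theorem van_pow {n : ℕ} {F : MvPolynomial (Fin n) ℂ} {q : Fin n → ℂ} {a : ℕ}
    (hF : VanishesToOrder F q a) (e : ℕ) : VanishesToOrder (F ^ e) q (e * a) := by
  induction e with
  | zero =>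
    rw [Nat.zero_mul]
    exact vanishes_zero _ _
  | succ e ih =>
    rw [pow_succ, Nat.succ_mul]
    exact van_mul ih hF

theorem van_prod {n : ℕ} {ι : Type*} (s : Finset ι) {F : ι → MvPolynomial (Fin n) ℂ}
    {q : Fin n → ℂ} {a : ι → ℕ} (hF : ∀ i ∈ s, VanishesToOrder (F i) q (a i)) :
    VanishesToOrder (∏ i ∈ s, F i) q (∑ i ∈ s, a i) := by
  classical
  induction s using Finset.induction_on with
  | empty =>
    rw [Finset.sum_empty]
    exact vanishes_zero _ _
  | insert b s hb ih =>
    rw [Finset.prod_insert hb, Finset.sum_insert hb]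
    exact van_mul (hF b (Finset.mem_insert_self b s))
      (ih fun i hi => hF i (Finset.mem_insert_of_mem hi))

theorem hom_pow {n : ℕ} {F : MvPolynomial (Fin n) ℂ} {a : ℕ} (hF : F.IsHomogeneous a) (e : ℕ) :
    (F ^ e).IsHomogeneous (e * a) := by
  rw [Nat.mul_comm]
  exact hF.pow e

/-- The polynomial with simple zeros at the nodes of `T`. -/
noncomputable def nod (T : Finset ℕ) : Polynomial ℂ := ∏ l ∈ T, (Polynomial.X - Polynomial.C (l : ℂ))

theorem nod_natDegree (T : Finset ℕ) : (nod T).natDegree = T.card := by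
  unfold nod
  rw [Polynomial.natDegree_prod_of_monic _ _ fun l _ => Polynomial.monic_X_sub_C _,
    Finset.sum_congr rfl fun l _ => Polynomial.natDegree_X_sub_C _, Finset.sum_const, smul_eq_mul,
    mul_one]

theorem nod_eval {T : Finset ℕ} {x : ℕ} : (nod T).eval (x : ℂ) = 0 ↔ x ∈ T := by
  unfold nod
  rw [Polynomial.eval_prod, Finset.prod_eq_zero_iff]
  constructor
  · rintro ⟨l, hl, h⟩
    rw [Polynomial.eval_sub, Polynomial.eval_X, Polynomial.eval_C, sub_eq_zero] at h
    have h1 : x = l := by exact_mod_cast h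
    rwa [h1]
  · intro h
    exact ⟨x, h, by simp⟩

/-- Products of linear forms with prescribed multiplicities. -/
theorem cover (r : ℕ) : ∀ (t : ℕ) (w : ℕ → ℕ) (A : Finset ℕ), (∀ l ∈ A, w l ≤ t) →
    ∑ l ∈ A, w l ≤ r * t → ∃ H : MvPolynomial (Fin (r + 1)) ℂ, H.IsHomogeneous t ∧
      (∀ x : ℕ, x ∉ A → eval (pt r x) H ≠ 0) ∧
      ∀ l ∈ A, VanishesToOrder H (pt r l) (w l) := by
  intro t
  induction t with
  | zero =>
    intro w A hw _
    refine ⟨1, isHomogeneous_one _ _, fun x _ => by simp, fun l hl => ?_⟩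
    have := hw l hl
    have h0 : w l = 0 := by omega
    rw [h0]
    exact vanishes_zero _ _
  | succ t ih =>
    intro w A hw hsum
    set A1 := A.filter fun l => w l = t + 1 with hA1
    set A0 := A.filter fun l => 1 ≤ w l with hA0
    have h10 : A1 ⊆ A0 := by
      intro l hl
      rw [hA1, Finset.mem_filter] at hl
      rw [hA0, Finset.mem_filter]
      exact ⟨hl.1, by omega⟩
    have hc1 : A1.card ≤ r := by
      have h1 : A1.card * (t + 1) ≤ ∑ l ∈ A, w l := by
        calc A1.card * (t + 1) = ∑ l ∈ A1, w l := by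
              rw [Finset.sum_congr rfl fun l hl => (Finset.mem_filter.1 hl).2, Finset.sum_const,
                smul_eq_mul]
          _ ≤ _ := Finset.sum_le_sum_of_subset (Finset.filter_subset _ _)
      have h2 := h1.trans hsum
      exact Nat.le_of_mul_le_mul_right h2 (by omega)
    obtain ⟨T, hT1, hT0, hTc⟩ := Finset.exists_subsuperset_card_eq (n := min r A0.card) h10
      (le_min hc1 (Finset.card_le_card h10)) (min_le_right _ _)
    have hTA : T ⊆ A := hT0.trans (Finset.filter_subset _ _)
    set w' : ℕ → ℕ := fun l => if l ∈ T then w l - 1 else w l with hw'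
    have hw1 : ∀ l ∈ A, w' l ≤ t := by
      intro l hl
      rw [hw']
      dsimp only
      have := hw l hl
      by_cases hlT : l ∈ T
      · rw [if_pos hlT]
        omega
      · rw [if_neg hlT]
        by_contra hcon
        exact hlT (hT1 (Finset.mem_filter.2 ⟨hl, by omega⟩))
    have hsplit : ∑ l ∈ A, w' l + T.card = ∑ l ∈ A, w l := by
      have h1 : T.card = ∑ l ∈ A, if l ∈ T then 1 else 0 := by
        rw [← Finset.sum_filter, Finset.sum_const, smul_eq_mul, mul_one,
          Finset.filter_mem_eq_inter, Finset.inter_eq_right.2 hTA]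
      rw [h1, ← Finset.sum_add_distrib]
      refine Finset.sum_congr rfl fun l _ => ?_
      rw [hw']
      dsimp only
      by_cases hlT : l ∈ T
      · rw [if_pos hlT, if_pos hlT]
        have := (Finset.mem_filter.1 (hT0 hlT)).2
        omega
      · rw [if_neg hlT, if_neg hlT]
        omega
    have hsum' : ∑ l ∈ A, w' l ≤ r * t := by
      rcases le_total r A0.card with h | h
      · rw [min_eq_left h] at hTc
        have : r * (t + 1) = r * t + r := by ring
        omega
      · rw [min_eq_right h] at hTc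
        have hTe : T = A0 := Finset.eq_of_subset_of_card_le hT0 (by omega)
        have h1 : ∑ l ∈ A, w' l = ∑ l ∈ A0, w' l := by
          symm
          apply Finset.sum_subset (Finset.filter_subset _ _)
          intro l hl hl0
          rw [hw']
          dsimp only
          rw [if_neg (by rw [hTe]; exact hl0)]
          by_contra hcon
          exact hl0 (Finset.mem_filter.2 ⟨hl, by omega⟩)
        rw [h1]
        calc ∑ l ∈ A0, w' l ≤ ∑ _l ∈ A0, t :=
              Finset.sum_le_sum fun l hl => hw1 l (Finset.filter_subset _ _ hl)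
          _ = A0.card * t := by rw [Finset.sum_const, smul_eq_mul]
          _ ≤ r * t := Nat.mul_le_mul_right _ h
    obtain ⟨H, hH1, hH2, hH3⟩ := ih w' A hw1 hsum'
    have hdeg : (nod T).natDegree ≤ r := by
      rw [nod_natDegree, hTc]
      exact min_le_left _ _
    refine ⟨lin r (nod T) * H, ?_, fun x hx => ?_, fun l hl => ?_⟩
    · rw [Nat.add_comm t 1]
      exact (lin_hom r _).mul hH1
    · rw [map_mul, eval_lin hdeg]
      refine mul_ne_zero (fun h => hx (hTA (nod_eval.1 h))) (hH2 x hx)
    · have h3 := hH3 l hl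
      by_cases hlT : l ∈ T
      · have h4 : VanishesToOrder (lin r (nod T)) (pt r l) 1 := by
          rw [vanishes_one_iff, eval_lin hdeg]
          exact nod_eval.2 hlT
        refine van_mono (van_mul h4 h3) ?_
        rw [hw']
        dsimp only
        rw [if_pos hlT]
        omega
      · have h4 := vanishes_zero (pt r l) (lin r (nod T))
        refine van_mono (van_mul h4 h3) ?_
        rw [hw']
        dsimp only
        rw [if_neg hlT]
        omega

end Pool.Agent.H74.CT
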