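import Pool.Agent.H74.CT.Upper

/-!
# The dimension in the degrees slightly below `d`
-/

namespace Pool.Agent.H74.CT

open Pool.Agent.H18.Fat Finset

theorem hockey (s m : ℕ) : ∑ i ∈ range m, (i + (s + 1)).choose (s + 1) =
    (m + (s + 2) - 1).choose (s + 2) := by
  induction m with
  | zero =>
    rw [range_zero, sum_empty, Nat.choose_eq_zero_of_lt (by omega)]
  | succ m ih =>
    rw [sum_range_succ, ih]
    have h1 : m + 1 + (s + 2) - 1 = (m + (s + 1)) + 1 := by omega
    have h2 : m + (s + 2) - 1 = m + (s + 1) := by omega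
    rw [h1, h2, Nat.choose_succ_succ, Nat.add_comm]

theorem choose_drop (s i : ℕ) : ∀ γ : ℕ, γ ≤ i →
    (i + (s + 1)).choose (s + 1) ≤ (i - γ + (s + 1)).choose (s + 1) + γ * (i + s).choose s := by
  intro γ
  induction γ with
  | zero =>
    intro _
    simp
  | succ γ ih =>
    intro h
    have h1 := ih (by omega)
    have h2 : i - γ + (s + 1) = (i - (γ + 1) + (s + 1)) + 1 := by omega
    rw [h2, Nat.choose_succ_succ' (i - (γ + 1) + (s + 1)) s] at h1
    have h3 : (i - (γ + 1) + (s + 1)).choose s ≤ (i + s).choose s :=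
      Nat.choose_le_choose _ (by omega)
    rw [Nat.succ_mul]
    omega

/-- The excess. -/
def exc {k : ℕ} (m : Fin k → ℕ) (J : Finset (Fin k)) (j : ℕ) (P : Fin k) (i : ℕ) : ℕ :=
  ∑ l ∈ J.filter (fun l => l ≠ P ∧ m P ≤ m l), (m l + i - j)

section

variable {s k d D δ : ℕ} {m : Fin k → ℕ} {J : Finset (Fin k)}

theorem exc_term (hδ : 2 * δ ≤ d) (h3 : ∀ a ∈ J, ∀ b ∈ J, a ≠ b → m a + m b ≤ d + 1)
    {P : Fin k} (hP : P ∈ J) {i : ℕ} (hi : i < m P) {l : Fin k}
    (hl : l ∈ J.filter (fun l => l ≠ P ∧ m P ≤ m l)) :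
    m l + i - (d - δ) ≤ δ ∧ (m l + i - (d - δ) ≠ 0 → d ≤ 4 * m l ∧ m P ≤ i + δ) := by
  rw [mem_filter] at hl
  have h4 := h3 l hl.1 P hP hl.2.1
  have h5 := hl.2.2
  constructor
  · omega
  · intro h6
    constructor <;> omega

theorem exc_le (hd : 1 ≤ d) (hδ : 2 * δ ≤ d) (h2 : ∑ i ∈ J, m i ≤ (s + 2) * d)
    (h3 : ∀ a ∈ J, ∀ b ∈ J, a ≠ b → m a + m b ≤ d + 1)
    {P : Fin k} (hP : P ∈ J) {i : ℕ} (hi : i < m P) :
    exc m J (d - δ) P i ≤ 4 * (s + 2) * δ := by
  have h4 : d * exc m J (d - δ) P i ≤ ∑ l ∈ J, 4 * δ * m l := by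
    unfold exc
    rw [mul_sum]
    calc ∑ l ∈ J.filter (fun l => l ≠ P ∧ m P ≤ m l), d * (m l + i - (d - δ)) ≤
        ∑ l ∈ J.filter (fun l => l ≠ P ∧ m P ≤ m l), 4 * δ * m l := by
          refine sum_le_sum fun l hl => ?_
          obtain ⟨h5, h6⟩ := exc_term hδ h3 hP hi hl
          by_cases h7 : m l + i - (d - δ) = 0
          · rw [h7, mul_zero]
            exact Nat.zero_le _
          · have h8 := (h6 h7).1
            calc d * (m l + i - (d - δ)) ≤ (4 * m l) * δ := Nat.mul_le_mul h8 h5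
              _ = 4 * δ * m l := by ring
      _ ≤ _ := sum_le_sum_of_subset (filter_subset _ _)
  rw [← mul_sum] at h4
  have h5 : d * exc m J (d - δ) P i ≤ d * (4 * (s + 2) * δ) := by
    refine h4.trans ?_
    calc 4 * δ * ∑ i ∈ J, m i ≤ 4 * δ * ((s + 2) * d) := Nat.mul_le_mul_left _ h2
      _ = d * (4 * (s + 2) * δ) := by ring
  exact Nat.le_of_mul_le_mul_left h5 hd

theorem exc_pos (hδ : 2 * δ ≤ d) (h1 : ∀ i ∈ J, m i + D ≤ d)
    (h3 : ∀ a ∈ J, ∀ b ∈ J, a ≠ b → m a + m b ≤ d + 1)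
    {P : Fin k} (hP : P ∈ J) {i : ℕ} (hi : i < m P) (h0 : exc m J (d - δ) P i ≠ 0) :
    D < i + δ ∧ m P ≤ i + δ := by
  unfold exc at h0
  obtain ⟨l, hl, h4⟩ := exists_ne_zero_of_sum_ne_zero h0
  have h5 := (exc_term hδ h3 hP hi hl).2 h4
  have h6 := h1 l (mem_filter.1 hl).1
  constructor
  · omega
  · exact h5.2

/-- Degrees slightly below `d`. -/
theorem near (hD : 4 * (s + 2) ^ 2 * δ ≤ D) (hD0 : 1 ≤ D) (hDd : D ≤ d)
    (h1 : ∀ i ∈ J, m i + D ≤ d) (h2 : ∑ i ∈ J, m i + D ≤ (s + 2) * d)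
    (h3 : ∀ a ∈ J, ∀ b ∈ J, a ≠ b → m a + m b ≤ d + 1) :
    ∃ e : ℕ, D * e ≤ 8 * (s + 2) ^ 3 * δ ^ 2 * (d + (s + 1)).choose (s + 1) ∧
      (generalDim (s + 2) (d - δ) fun i => if i ∈ J then m i else 0) +
        ∑ i ∈ J, (m i + (s + 2) - 1).choose (s + 2) ≤ (d - δ + (s + 2)).choose (s + 2) + e := by
  have hsq : 4 * (s + 2) * δ * (s + 2) ≤ D := by
    refine le_trans (le_of_eq ?_) hD
    ring
  have hδd : 8 * δ * (s + 2) ≤ D := by
    have h4 : 8 * δ * (s + 2) ≤ 4 * (s + 2) * δ * (s + 2) := by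
      have : 8 * δ ≤ 4 * (s + 2) * δ := by nlinarith
      exact Nat.mul_le_mul_right _ this
    exact h4.trans hsq
  have hδd2 : 16 * δ ≤ D := by nlinarith
  have hδ : 2 * δ ≤ d := by omega
  have hd : 1 ≤ d := by omega
  have h2' : ∑ i ∈ J, m i ≤ (s + 2) * d := by omega
  have hex := @exc_le s k d δ m J hd hδ h2' h3
  have hpos := @exc_pos k d D δ m J hδ h1 h3
  have hup := upper_fin (s + 2) (d - δ) k (by omega) m (exc m J (d - δ)) J
    (fun P hP => by
      have := h1 P hP
      omega)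
    (fun P hP i hi => ⟨le_rfl, by
      by_cases h0 : exc m J (d - δ) P i = 0
      · omega
      · have h4 := (hpos hP hi h0).1
        have h5 := hex hP hi
        have h6 : 4 * (s + 2) * δ + δ ≤ D := by nlinarith
        omega, by
      have h5 := hex hP hi
      have h6 : (s + 2 - 2) * exc m J (d - δ) P i ≤ s * (4 * (s + 2) * δ) := by
        have : s + 2 - 2 = s := by omega
        rw [this]
        exact Nat.mul_le_mul_left _ h5
      have h7 : (s + 2) * (d - δ) + (s + 2) * δ = (s + 2) * d := by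
        rw [← Nat.mul_add]
        congr 1
        omega
      have h8 : s * (4 * (s + 2) * δ) + (s + 2) * δ ≤ D := by nlinarith
      omega⟩)
  have hr1 : s + 2 - 1 = s + 1 := by omega
  rw [hr1] at hup
  refine ⟨∑ P ∈ J, ∑ i ∈ range (m P), exc m J (d - δ) P i * (i + s).choose s, ?_, ?_⟩
  · -- the error
    have hN : (d + (s + 1)) * (d + s).choose s = (d + (s + 1)).choose (s + 1) * (s + 1) :=
      Nat.add_one_mul_choose_eq (d + s) s
    have hinner : ∀ P ∈ J, D * ∑ i ∈ range (m P), exc m J (d - δ) P i * (i + s).choose s ≤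
        2 * m P * (4 * (s + 2) * δ ^ 2 * (d + s).choose s) := by
      intro P hP
      have hterm : ∀ i ∈ range (m P), exc m J (d - δ) P i * (i + s).choose s ≤
          if m P ≤ i + δ ∧ D ≤ 2 * m P then 4 * (s + 2) * δ * (d + s).choose s else 0 := by
        intro i hi
        rw [mem_range] at hi
        by_cases h0 : exc m J (d - δ) P i = 0
        · rw [h0, zero_mul]
          exact Nat.zero_le _
        · obtain ⟨h4, h5⟩ := hpos hP hi h0
          rw [if_pos ⟨h5, by omega⟩]
          refine Nat.mul_le_mul (hex hP hi) (Nat.choose_le_choose _ ?_)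
          have := h1 P hP
          omega
      by_cases hbig : D ≤ 2 * m P
      · have h4 : ∑ i ∈ range (m P), exc m J (d - δ) P i * (i + s).choose s ≤
            δ * (4 * (s + 2) * δ * (d + s).choose s) := by
          refine (sum_le_sum hterm).trans ?_
          rw [← sum_filter, sum_const, smul_eq_mul]
          refine Nat.mul_le_mul_right _ ?_
          have h5 : (range (m P)).filter (fun i => m P ≤ i + δ ∧ D ≤ 2 * m P) ⊆
              Ico (m P - δ) (m P) := by
            intro i hi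
            rw [mem_filter, mem_range] at hi
            rw [mem_Ico]
            omega
          refine (card_le_card h5).trans ?_
          rw [Nat.card_Ico]
          omega
        calc D * ∑ i ∈ range (m P), exc m J (d - δ) P i * (i + s).choose s ≤
            (2 * m P) * (δ * (4 * (s + 2) * δ * (d + s).choose s)) := Nat.mul_le_mul hbig h4
          _ = _ := by ring
      · have h4 : ∑ i ∈ range (m P), exc m J (d - δ) P i * (i + s).choose s = 0 := by
          refine Nat.le_zero.1 ((sum_le_sum hterm).trans (le_of_eq ?_))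
          refine sum_eq_zero fun i _ => ?_
          rw [if_neg fun h => hbig h.2]
        rw [h4, mul_zero]
        exact Nat.zero_le _
    have hdN : d * (d + s).choose s ≤ (d + (s + 1)).choose (s + 1) * (s + 2) := by
      calc d * (d + s).choose s ≤ (d + (s + 1)) * (d + s).choose s :=
            Nat.mul_le_mul_right _ (by omega)
        _ = (d + (s + 1)).choose (s + 1) * (s + 1) := hN
        _ ≤ _ := Nat.mul_le_mul_left _ (by omega)
    calc D * ∑ P ∈ J, ∑ i ∈ range (m P), exc m J (d - δ) P i * (i + s).choose s =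
        ∑ P ∈ J, D * ∑ i ∈ range (m P), exc m J (d - δ) P i * (i + s).choose s := mul_sum _ _ _
      _ ≤ ∑ P ∈ J, 2 * m P * (4 * (s + 2) * δ ^ 2 * (d + s).choose s) := sum_le_sum hinner
      _ = (∑ P ∈ J, m P) * (8 * (s + 2) * δ ^ 2 * (d + s).choose s) := by
          rw [sum_mul]
          refine sum_congr rfl fun P _ => ?_
          ring
      _ ≤ ((s + 2) * d) * (8 * (s + 2) * δ ^ 2 * (d + s).choose s) :=
          Nat.mul_le_mul_right _ h2'
      _ = (8 * (s + 2) ^ 2 * δ ^ 2) * (d * (d + s).choose s) := by ring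
      _ ≤ (8 * (s + 2) ^ 2 * δ ^ 2) * ((d + (s + 1)).choose (s + 1) * (s + 2)) :=
          Nat.mul_le_mul_left _ hdN
      _ = _ := by ring
  · have h4 : ∑ i ∈ J, (m i + (s + 2) - 1).choose (s + 2) ≤
        ∑ P ∈ J, ∑ i ∈ range (m P), (i - exc m J (d - δ) P i + (s + 1)).choose (s + 1) +
        ∑ P ∈ J, ∑ i ∈ range (m P), exc m J (d - δ) P i * (i + s).choose s := by
      rw [← sum_add_distrib]
      refine sum_le_sum fun P hP => ?_
      rw [← hockey, ← sum_add_distrib]
      refine sum_le_sum fun i hi => ?_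
      rw [mem_range] at hi
      refine choose_drop s i _ ?_
      by_cases h0 : exc m J (d - δ) P i = 0
      · omega
      · have h4 := (hpos hP hi h0).1
        have h5 := hex hP hi
        have h6 : 4 * (s + 2) * δ + δ ≤ D := by nlinarith
        omega
    omega

end

end Pool.Agent.H74.CT
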