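import Pool.Agent.H74.CT.Gain

/-!
# General points and the second stage lemma
-/

namespace Pool.Agent.H74.CT

open MvPolynomial Pool.Agent.H18.Fat Pool.Agent.H18.Ub Pool.Agent.H22.LU Finset

theorem general_all {r k : ℕ} {α : Type*} (s : Finset α)
    {P : α → (Fin k → Fin (r + 1) → ℂ) → Prop} (h : ∀ a ∈ s, ForGeneralPoints r k (P a)) :
    ForGeneralPoints r k fun p => ∀ a ∈ s, P a p := by
  classical
  induction s using Finset.induction_on with
  | empty => exact ⟨1, one_ne_zero, fun p _ a ha => absurd ha (notMem_empty a)⟩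
  | insert b s hb ih =>
    have h1 := (h b (mem_insert_self b s)).and (ih fun a ha => h a (mem_insert_of_mem ha))
    refine h1.mono fun p hp a ha => ?_
    rcases mem_insert.1 ha with h2 | h2
    · rw [h2]
      exact hp.1
    · exact hp.2 a h2

theorem general_line {s k : ℕ} {l P : Fin k} (hl : l ≠ P) :
    ForGeneralPoints (s + 1) k fun p => ∃ L : MvPolynomial (Fin (s + 1 + 1)) ℂ,
      L.IsHomogeneous 1 ∧ VanishesToOrder L (p l) 1 ∧ ¬ VanishesToOrder L (p P) 1 := by
  classical
  refine ⟨X (l, 1) * X (P, 0) - X (l, 0) * X (P, 1), fun h => ?_, fun p hp => ?_⟩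
  · have h1 := congrArg (eval fun x : Fin k × Fin (s + 1 + 1) =>
      if x = (l, 1) ∨ x = (P, 0) then (1 : ℂ) else 0) h
    rw [map_sub, map_mul, map_mul, eval_X, eval_X, eval_X, eval_X, map_zero] at h1
    have h2 : ¬ (((l, 0) : Fin k × Fin (s + 1 + 1)) = (l, 1) ∨
        ((l, 0) : Fin k × Fin (s + 1 + 1)) = (P, 0)) := by
      rintro (h3 | h3)
      · have := congrArg Prod.snd h3
        exact absurd this (by simp)
      · exact hl (congrArg Prod.fst h3)
    rw [if_pos (Or.inl rfl), if_pos (Or.inr rfl), if_neg h2] at h1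
    norm_num at h1
  · refine ⟨C (p l 1) * X 0 - C (p l 0) * X 1, ?_, ?_, ?_⟩
    · refine IsHomogeneous.sub ?_ ?_
      · simpa using (isHomogeneous_C _ (p l 1)).mul (isHomogeneous_X ℂ (0 : Fin (s + 1 + 1)))
      · simpa using (isHomogeneous_C _ (p l 0)).mul (isHomogeneous_X ℂ (1 : Fin (s + 1 + 1)))
    · rw [vanishes_one_iff]
      simp only [map_sub, map_mul, eval_C, eval_X]
      ring
    · rw [vanishes_one_iff]
      simp only [map_sub, map_mul, eval_C, eval_X]
      simp only [map_sub, map_mul, eval_X] at hp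
      exact hp

/-- Points in general position. -/
structure Gen (s k N q ν : ℕ) (J : Finset (Fin k)) (p : Fin k → Fin (s + 1 + 1) → ℂ) : Prop where
  sim : ∀ t ≤ N, ∀ w : Fin k → ℕ, (∀ l, w l ≤ N + 1) →
    Module.finrank ℂ (fatForms (s + 1) t p w) = generalDim (s + 1) t w
  line : ∀ P l : Fin k, l ≠ P → ∃ L : MvPolynomial (Fin (s + 1 + 1)) ℂ,
      L.IsHomogeneous 1 ∧ VanishesToOrder L (p l) 1 ∧ ¬ VanishesToOrder L (p P) 1
  g0 : ∀ P ∈ J, ∃ G : MvPolynomial (Fin (s + 1 + 1)) ℂ, G.IsHomogeneous (2 * q) ∧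
      (∀ l ∈ J, l ≠ P → VanishesToOrder G (p l) ν) ∧ ¬ VanishesToOrder G (p P) 1

theorem exists_gen (s k N q ν : ℕ) (J : Finset (Fin k))
    (hpos : ∀ P ∈ J, 1 ≤ generalDim (s + 1) (2 * q) (onu J P ν 0)) :
    ∃ p, Gen s k N q ν J p := by
  classical
  have h1 : ForGeneralPoints (s + 1) k fun p => ∀ t ∈ range (N + 1),
      ∀ w ∈ (univ : Finset (Fin k → Fin (N + 2))),
      Module.finrank ℂ (fatForms (s + 1) t p fun l => (w l : ℕ)) =
        generalDim (s + 1) t fun l => (w l : ℕ) :=
    general_all _ fun t _ => general_all _ fun w _ => generalDim_spec (s + 1) t _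
  have h2 : ForGeneralPoints (s + 1) k fun p => ∀ x ∈ (univ : Finset (Fin k × Fin k)).filter
      (fun x => x.1 ≠ x.2), ∃ L : MvPolynomial (Fin (s + 1 + 1)) ℂ,
      L.IsHomogeneous 1 ∧ VanishesToOrder L (p x.1) 1 ∧ ¬ VanishesToOrder L (p x.2) 1 :=
    general_all _ fun x hx => general_line (mem_filter.1 hx).2
  have h3 : ForGeneralPoints (s + 1) k fun p => ∀ P ∈ J,
      ∃ G : MvPolynomial (Fin (s + 1 + 1)) ℂ, G.IsHomogeneous (2 * q) ∧
      (∀ l ∈ J, l ≠ P → VanishesToOrder G (p l) ν) ∧ ¬ VanishesToOrder G (p P) 1 :=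
    general_all _ fun P hP => exists_G0 J P (hpos P hP)
  obtain ⟨p, hp1, hp2, hp3⟩ := Pool.Agent.H18.Cub.exists_of_general (h1.and (h2.and h3))
  refine ⟨p, ⟨fun t ht w hw => ?_, fun P l hl => ?_, hp3⟩⟩
  · exact hp1 t (mem_range.2 (by omega)) (fun l => ⟨w l, by
      have := hw l
      omega⟩) (mem_univ _)
  · exact hp2 (l, P) (mem_filter.2 ⟨mem_univ _, hl⟩)

/-- Multiplicities `m` on `A`, `i` at `P`, zero elsewhere. -/
def mf {k : ℕ} (A : Finset (Fin k)) (m : Fin k → ℕ) (P : Fin k) (i : ℕ) : Fin k → ℕ :=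
  fun l => if l ∈ A then m l else if l = P then i else 0

/-- Second stage lemma. -/
theorem stage2 {s k N q₀ ν₀ : ℕ} {J : Finset (Fin k)} {p : Fin k → Fin (s + 1 + 1) → ℂ}
    (hp : Gen s k N q₀ ν₀ J p) (c : ℕ)
    (hJ : J.card ≤ ∑ u ∈ range (c + 2 + 1), (s + 1).choose u) {A : Finset (Fin k)} (hAJ : A ⊆ J)
    {P : Fin k} (hPJ : P ∈ J) (hPA : P ∉ A) (m : Fin k → ℕ)
    {G : MvPolynomial (Fin (s + 1 + 1)) ℂ} {g ν μ x i j : ℕ} (hG : G.IsHomogeneous g)
    (hGA : ∀ l ∈ A, VanishesToOrder G (p l) ν) (hGP : VanishesToOrder G (p P) μ)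
    (hGn : ¬ VanishesToOrder G (p P) (μ + 1)) (hj : g + x + c = j) (hjN : j ≤ N)
    (h1 : ∀ a ∈ A, ∀ b ∈ A, a ≠ b → (m a - ν) + (m b - ν) ≤ x)
    (h2 : ∀ a ∈ A, (m a - ν) + i ≤ x) (h3 : 2 * i ≤ x) :
    Module.finrank ℂ (fatForms (s + 1) j p (mf A m P (i + μ + 1))) + (i + s).choose s ≤
      Module.finrank ℂ (fatForms (s + 1) j p (mf A m P (i + μ))) := by
  classical
  -- the form, the multiplicity and the degree
  obtain ⟨G', e, q, t, hG', hGP', hGn', het, hqt, hqx, hiq, hGl⟩ :
      ∃ (G' : MvPolynomial (Fin (s + 1 + 1)) ℂ) (e q t : ℕ), G'.IsHomogeneous e ∧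
      VanishesToOrder G' (p P) μ ∧ ¬ VanishesToOrder G' (p P) (μ + 1) ∧ e + t = j ∧
      2 * q + c ≤ t ∧ q ≤ x ∧ i ≤ q ∧ ∀ l ∈ A, VanishesToOrder G' (p l) (m l - q) := by
    by_cases htop : ∀ a ∈ A, 2 * (m a - ν) ≤ x
    · refine ⟨G, g, x / 2, x + c, hG, hGP, hGn, by omega, by omega, by omega, by omega,
        fun l hl => van_mono (hGA l hl) ?_⟩
      have := htop l hl
      omega
    · push Not at htop
      obtain ⟨a, ha, hax⟩ := htop
      have haP : a ≠ P := fun h => hPA (h ▸ ha)
      obtain ⟨L, hL1, hL2, hL3⟩ := hp.line P a haP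
      have h4 := h2 a ha
      have hLP : eval (p P) L ≠ 0 := fun h => hL3 (vanishes_one_iff.2 h)
      refine ⟨G * L ^ (2 * (m a - ν) - x), g + (2 * (m a - ν) - x), x - (m a - ν),
        2 * (x - (m a - ν)) + c, ?_, ?_, ?_, by omega, le_rfl, by omega, by omega, fun l hl => ?_⟩
      · have h5 := hG.mul (hL1.pow (2 * (m a - ν) - x))
        rwa [one_mul] at h5
      · exact van_mono (van_mul hGP (vanishes_zero (p P) (L ^ (2 * (m a - ν) - x))))
          (Nat.le_add_right _ _)
      · intro h5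
        have h6 := vanishes_of_mul hGn h5
        have h7 : μ + 1 - μ = 1 := by omega
        rw [h7, vanishes_one_iff, map_pow] at h6
        exact pow_ne_zero _ hLP h6
      · by_cases hla : l = a
        · subst hla
          have h5 := van_pow hL2 (2 * (m l - ν) - x)
          refine van_mono (van_mul (hGA l hl) h5) ?_
          omega
        · have h5 := h1 l hl a ha hla
          refine van_mono (van_mul (hGA l hl) (vanishes_zero (p l) (L ^ (2 * (m a - ν) - x)))) ?_
          omega
  have hst := mult_stage p P hG' het μ hGP' hGn' (WW J P q i) (WW J P q (i + 1))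
    (mf A m P (i + μ)) (mf A m P (i + μ + 1)) (fun l hl => by
      unfold WW
      rw [if_neg hl, if_neg hl]) (by
      unfold WW
      rw [if_pos hPJ, if_pos rfl, if_pos hPJ, if_pos rfl]) (fun l hl => by
      unfold mf
      rw [if_neg hl, if_neg hl]) (by
      unfold mf
      rw [if_neg hPA, if_pos rfl, if_neg hPA, if_pos rfl]) (by
      unfold mf WW
      rw [if_neg hPA, if_pos rfl, if_pos hPJ, if_pos rfl]) (fun l hl => by
      unfold mf WW
      by_cases hlA : l ∈ A
      · rw [if_pos hlA, if_pos (hAJ hlA), if_neg hl]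
        exact hGl l hlA
      · rw [if_neg hlA, if_neg hl, Nat.zero_sub]
        exact vanishes_zero _ _)
  have hw : ∀ i', i' ≤ q + 1 → ∀ l, WW J P q i' l ≤ N + 1 := by
    intro i' hi' l
    unfold WW
    split_ifs <;> omega
  rw [hp.sim t (by omega) _ (hw i (by omega)), hp.sim t (by omega) _ (hw (i + 1) (by omega)),
    grid_step s t k c J hPJ hJ q i hqt hiq] at hst
  omega

/-- One point. -/
theorem base {s k N q₀ ν₀ : ℕ} {J : Finset (Fin k)} {p : Fin k → Fin (s + 1 + 1 + 1) → ℂ}
    (hp : Gen (s + 1) k N q₀ ν₀ J p) (P : Fin k) {j n : ℕ} (hn : n ≤ j + 1) (hj : j ≤ N)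
    (m : Fin k → ℕ) (hm : m P = n) :
    Module.finrank ℂ (fatForms (s + 2) j p fun l => if l ∈ ({P} : Finset (Fin k)) then m l else 0) +
      ∑ i ∈ range n, (i + (s + 1)).choose (s + 1) ≤ (j + (s + 2)).choose (s + 2) := by
  classical
  have h1 := upper_fin (s + 2) j k (by omega) m (fun _ _ => 0) {P}
    (fun Q hQ => by
      rw [mem_singleton.1 hQ, hm]
      exact hn) (fun Q hQ i hi => by
      rw [mem_singleton] at hQ
      subst hQ
      refine ⟨?_, Nat.zero_le _, ?_⟩
      · rw [sum_filter, sum_singleton, if_neg fun h => h.1 rfl]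
      · rw [sum_singleton, hm, Nat.mul_zero]
        nlinarith)
  rw [sum_singleton, hm] at h1
  have h2 := hp.sim j hj (fun l => if l ∈ ({P} : Finset (Fin k)) then m l else 0) (fun l => by
    by_cases hl : l ∈ ({P} : Finset (Fin k))
    · rw [if_pos hl, mem_singleton.1 hl, hm]
      omega
    · rw [if_neg hl]
      exact Nat.zero_le _)
  have h3 : ∀ i : ℕ, (i - 0 + (s + 2 - 1)).choose (s + 2 - 1) = (i + (s + 1)).choose (s + 1) :=
    fun i => rfl
  rw [sum_congr rfl fun i _ => h3 i] at h1
  rw [h2]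
  exact h1

/-- Upper bound, from the stages. -/
theorem upper2 {s k N q₀ ν₀ : ℕ} {J : Finset (Fin k)} {p : Fin k → Fin (s + 1 + 1 + 1) → ℂ}
    (hp : Gen (s + 1) k N q₀ ν₀ J p) {j : ℕ} (hj : j ≤ N) (m : Fin k → ℕ) (γ : Fin k → ℕ → ℕ)
    (hmj : ∀ P ∈ J, m P ≤ j + 1)
    (hst : ∀ P ∈ J, ∀ A ⊆ J, P ∉ A → A.Nonempty → (∀ l ∈ A, m P ≤ m l) → ∀ i < m P,
      Module.finrank ℂ (fatForms (s + 2) j p (mf A m P (i + 1))) +
        (i - γ P i + (s + 1)).choose (s + 1) ≤
      Module.finrank ℂ (fatForms (s + 2) j p (mf A m P i))) :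
    Module.finrank ℂ (fatForms (s + 2) j p fun l => if l ∈ J then m l else 0) +
      ∑ P ∈ J, ∑ i ∈ range (m P), (i - γ P i + (s + 1)).choose (s + 1) ≤
      (j + (s + 2)).choose (s + 2) := by
  classical
  have key : ∀ A : Finset (Fin k), A ⊆ J →
      Module.finrank ℂ (fatForms (s + 2) j p fun l => if l ∈ A then m l else 0) +
      ∑ P ∈ A, ∑ i ∈ range (m P), (i - γ P i + (s + 1)).choose (s + 1) ≤
      (j + (s + 2)).choose (s + 2) := by
    intro A
    induction A using Finset.induction_on_min_value m with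
    | empty =>
      intro _
      rw [sum_empty, Nat.add_zero]
      exact finrank_le_mons _ _ _ _
    | insert P A hP hmin ih =>
      intro hAJ
      have hPJ : P ∈ J := hAJ (mem_insert_self P A)
      have hAJ' : A ⊆ J := fun l hl => hAJ (mem_insert_of_mem hl)
      rcases A.eq_empty_or_nonempty with hA | hA
      · subst hA
        have h1 := base hp P (hmj P hPJ) hj m rfl
        rw [sum_insert hP, sum_empty]
        refine le_trans (Nat.add_le_add_left ?_ _) h1
        change ∑ i ∈ range (m P), (i - γ P i + (s + 1)).choose (s + 1) ≤ _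
        refine (sum_le_sum fun i _ => Nat.choose_le_choose _ ?_)
        omega
      · have h1 := ih hAJ'
        have h2 : ∀ n ≤ m P, Module.finrank ℂ (fatForms (s + 2) j p (mf A m P n)) +
            ∑ i ∈ range n, (i - γ P i + (s + 1)).choose (s + 1) ≤
            Module.finrank ℂ (fatForms (s + 2) j p fun l => if l ∈ A then m l else 0) := by
          intro n
          induction n with
          | zero =>
            intro _
            have h3 : mf A m P 0 = fun l => if l ∈ A then m l else 0 := by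
              funext l
              unfold mf
              split_ifs <;> rfl
            rw [h3, range_zero, sum_empty, Nat.add_zero]
          | succ n ihn =>
            intro hn
            have h3 := ihn (by omega)
            have h4 := hst P hPJ A hAJ' hP hA hmin n (by omega)
            rw [sum_range_succ]
            omega
        have h3 := h2 (m P) le_rfl
        have h4 : mf A m P (m P) = fun l => if l ∈ insert P A then m l else 0 := by
          funext l
          unfold mf
          by_cases h5 : l ∈ A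
          · rw [if_pos h5, if_pos (mem_insert_of_mem h5)]
          · by_cases h6 : l = P
            · subst h6
              rw [if_neg h5, if_pos rfl, if_pos (mem_insert_self _ _)]
            · rw [if_neg h5, if_neg h6, if_neg]
              rw [mem_insert]
              tauto
        rw [h4] at h3
        rw [sum_insert hP]
        omega
  exact key J (Subset.refl J)

end Pool.Agent.H74.CT
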