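import Pool.Agent.H74.CT.Stage
import Pool.Agent.H18.Ub.VDim

/-!
# Upper bound for the dimension, by adding the nodes in the order of decreasing multiplicity
-/

namespace Pool.Agent.H74.CT

open MvPolynomial Pool.Agent.H18.Fat Pool.Agent.H22.LU

/-- Multiplicities `m` on `A`, `0` elsewhere. -/
def on {ι : Type*} [DecidableEq ι] (A : Finset ι) (m : ι → ℕ) : ι → ℕ :=
  fun l => if l ∈ A then m l else 0

theorem mm_zero (A : Finset ℕ) (m : ℕ → ℕ) (P : ℕ) : mm A m P 0 = on A m := by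
  funext l
  unfold mm on
  split_ifs <;> rfl

theorem mm_self (A : Finset ℕ) (m : ℕ → ℕ) (P : ℕ) :
    mm A m P (m P) = on (insert P A) m := by
  funext l
  unfold mm on
  by_cases h1 : l ∈ A
  · rw [if_pos h1, if_pos (Finset.mem_insert_of_mem h1)]
  · by_cases h2 : l = P
    · subst h2
      rw [if_neg h1, if_pos rfl, if_pos (Finset.mem_insert_self _ _)]
    · rw [if_neg h1, if_neg h2, if_neg]
      rw [Finset.mem_insert]
      tauto

/-- Raising the multiplicity of one node. -/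
theorem raise (r j : ℕ) (hr : 2 ≤ r) (A : Finset ℕ) (P : ℕ) (hP : P ∉ A) (m : ℕ → ℕ)
    (γ : ℕ → ℕ) : ∀ n : ℕ, (∀ l ∈ A, n ≤ m l) → (∀ i < n, i ≤ j ∧
      ∑ l ∈ A, (m l + i - j) ≤ γ i ∧ γ i ≤ i ∧ ∑ l ∈ A, m l + i + (r - 2) * γ i ≤ r * j) →
    Module.finrank ℂ (fatForms r j (fun l : ℕ => pt r l) (mm A m P n)) +
      ∑ i ∈ Finset.range n, (i - γ i + (r - 1)).choose (r - 1) ≤
      Module.finrank ℂ (fatForms r j (fun l : ℕ => pt r l) (on A m)) := by
  intro n
  induction n with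
  | zero =>
    intro _ _
    rw [Finset.range_zero, Finset.sum_empty, Nat.add_zero, mm_zero]
  | succ n ih =>
    intro h1 h2
    have h3 := ih (fun l hl => (Nat.le_succ n).trans (h1 l hl)) fun i hi => h2 i (by omega)
    obtain ⟨h4, h5, h6, h7⟩ := h2 n (Nat.lt_succ_self n)
    have h8 := stage r j n hr A P hP m h4 (fun l hl => h1 l hl) _ rfl (h5.trans h6)
      (le_trans (Nat.add_le_add_left (Nat.mul_le_mul_left _ h5) _) h7)
    have h9 : (n - γ n + (r - 1)).choose (r - 1) ≤
        (n - ∑ l ∈ A, (m l + n - j) + (r - 1)).choose (r - 1) :=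
      Nat.choose_le_choose _ (by omega)
    rw [Finset.sum_range_succ]
    omega

theorem finrank_le_mons (r j : ℕ) {ι : Type*} (p : ι → Fin (r + 1) → ℂ) (m : ι → ℕ) :
    Module.finrank ℂ (fatForms r j p m) ≤ (j + r).choose r := by
  have h1 : fatForms r j p m ≤ LinearMap.range (toPoly (r + 1) j) := fun F hF =>
    ⟨fun α => coeff α.1 F, exists_toPoly hF.1⟩
  have h2 := Submodule.finrank_mono h1
  have h3 := LinearMap.finrank_range_le (toPoly (r + 1) j)
  rw [Module.finrank_fintype_fun_eq_card, Fintype.card_coe, card_mons] at h3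
  exact h2.trans h3

theorem upper (r j : ℕ) (hr : 2 ≤ r) (m : ℕ → ℕ) (γ : ℕ → ℕ → ℕ) (J : Finset ℕ)
    (hmj : ∀ P ∈ J, m P ≤ j + 1)
    (hγ : ∀ P ∈ J, ∀ i < m P, ∑ l ∈ J.filter (fun l => l ≠ P ∧ m P ≤ m l), (m l + i - j) ≤ γ P i ∧
      γ P i ≤ i ∧ ∑ l ∈ J, m l + (r - 2) * γ P i ≤ r * j + 1) :
    Module.finrank ℂ (fatForms r j (fun l : ℕ => pt r l) (on J m)) +
      ∑ P ∈ J, ∑ i ∈ Finset.range (m P), (i - γ P i + (r - 1)).choose (r - 1) ≤
      (j + r).choose r := by
  have key : ∀ A : Finset ℕ, A ⊆ J →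
      Module.finrank ℂ (fatForms r j (fun l : ℕ => pt r l) (on A m)) +
      ∑ P ∈ A, ∑ i ∈ Finset.range (m P), (i - γ P i + (r - 1)).choose (r - 1) ≤
      (j + r).choose r := by
    intro A
    induction A using Finset.induction_on_min_value m with
    | empty =>
      intro _
      rw [Finset.sum_empty, Nat.add_zero]
      exact finrank_le_mons _ _ _ _
    | insert P A hP hmin ih =>
      intro hAJ
      have hPJ : P ∈ J := hAJ (Finset.mem_insert_self P A)
      have hAJ' : A ⊆ J := fun l hl => hAJ (Finset.mem_insert_of_mem hl)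
      have h1 := ih hAJ'
      have h2 := raise r j hr A P hP m (γ P) (m P) hmin fun i hi => by
        obtain ⟨h3, h4, h5⟩ := hγ P hPJ i hi
        have h6 := hmj P hPJ
        refine ⟨by omega, le_trans (Finset.sum_le_sum_of_subset fun l hl => ?_) h3, h4, ?_⟩
        · refine Finset.mem_filter.2 ⟨hAJ' hl, fun h => hP (h ▸ hl), hmin l hl⟩
        · have h7 : ∑ l ∈ insert P A, m l ≤ ∑ l ∈ J, m l := Finset.sum_le_sum_of_subset hAJ
          rw [Finset.sum_insert hP] at h7
          omega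
      rw [mm_self] at h2
      rw [Finset.sum_insert hP]
      omega
  exact key J (Finset.Subset.refl J)

/-- Upper bound for the dimension for general points. -/
theorem upper_fin (r j k : ℕ) (hr : 2 ≤ r) (m : Fin k → ℕ) (γ : Fin k → ℕ → ℕ)
    (J : Finset (Fin k)) (hmj : ∀ P ∈ J, m P ≤ j + 1)
    (hγ : ∀ P ∈ J, ∀ i < m P, ∑ l ∈ J.filter (fun l => l ≠ P ∧ m P ≤ m l), (m l + i - j) ≤ γ P i ∧
      γ P i ≤ i ∧ ∑ l ∈ J, m l + (r - 2) * γ P i ≤ r * j + 1) :
    (generalDim r j fun i => if i ∈ J then m i else 0) +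
      ∑ P ∈ J, ∑ i ∈ Finset.range (m P), (i - γ P i + (r - 1)).choose (r - 1) ≤
      (j + r).choose r := by
  classical
  set m' : ℕ → ℕ := fun l => if h : l < k then m ⟨l, h⟩ else 0 with hm'
  set γ' : ℕ → ℕ → ℕ := fun l => if h : l < k then γ ⟨l, h⟩ else 0 with hγ'
  set J' : Finset ℕ := J.map Fin.valEmbedding with hJ'
  have hmv : ∀ i : Fin k, m' i.1 = m i := fun i => by
    rw [hm']
    dsimp only
    rw [dif_pos i.2]
  have hγv : ∀ i : Fin k, γ' i.1 = γ i := fun i => by
    rw [hγ']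
    dsimp only
    rw [dif_pos i.2]
  have hsumJ : ∀ f : ℕ → ℕ, ∑ l ∈ J', f l = ∑ l ∈ J, f l.1 := fun f => by
    rw [hJ', Finset.sum_map]
    rfl
  have h1 := upper r j hr m' γ' J' (fun P hP => ?_) (fun P hP i hi => ?_)
  · rw [hsumJ] at h1
    have h2 : ∑ l ∈ J, ∑ i ∈ Finset.range (m' l.1), (i - γ' l.1 i + (r - 1)).choose (r - 1) =
        ∑ P ∈ J, ∑ i ∈ Finset.range (m P), (i - γ P i + (r - 1)).choose (r - 1) := by
      refine Finset.sum_congr rfl fun P _ => ?_
      rw [hmv, hγv]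
    rw [h2] at h1
    refine le_trans (Nat.add_le_add_right ?_ _) h1
    refine Nat.sInf_le ⟨fun i : Fin k => pt r (i.1 : ℕ), ?_⟩
    have h3 : fatForms r j (fun i : Fin k => pt r (i.1 : ℕ)) (fun i => if i ∈ J then m i else 0) =
        fatForms r j (fun l : ℕ => pt r l) (on J' m') := by
      ext F
      constructor
      · intro hF
        refine ⟨hF.1, fun l => ?_⟩
        unfold on
        by_cases hl : l ∈ J'
        · rw [if_pos hl]
          rw [hJ', Finset.mem_map] at hl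
          obtain ⟨i, hi, rfl⟩ := hl
          have h4 := hF.2 i
          dsimp only at h4
          rw [if_pos hi] at h4
          rw [Fin.valEmbedding_apply, hmv]
          exact h4
        · rw [if_neg hl]
          exact vanishes_zero _ _
      · intro hF
        refine ⟨hF.1, fun i => ?_⟩
        dsimp only
        by_cases hi : i ∈ J
        · rw [if_pos hi]
          have h4 := hF.2 i.1
          unfold on at h4
          rw [if_pos (by rw [hJ', Finset.mem_map]; exact ⟨i, hi, rfl⟩), hmv] at h4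
          exact h4
        · rw [if_neg hi]
          exact vanishes_zero _ _
    exact congrArg (fun V : Submodule ℂ (MvPolynomial (Fin (r + 1)) ℂ) => Module.finrank ℂ V) h3
  · rw [hJ', Finset.mem_map] at hP
    obtain ⟨i, hi, rfl⟩ := hP
    rw [Fin.valEmbedding_apply, hmv]
    exact hmj i hi
  · rw [hJ', Finset.mem_map] at hP
    obtain ⟨x, hx, rfl⟩ := hP
    rw [Fin.valEmbedding_apply] at hi ⊢
    rw [hmv] at hi
    have h4 := hγ x hx i hi
    rw [hγv, hmv, hsumJ]
    have h5 : ∑ l ∈ J'.filter (fun l => l ≠ x.1 ∧ m x ≤ m' l), (m' l + i - j) =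
        ∑ l ∈ J.filter (fun l => l ≠ x ∧ m x ≤ m l), (m l + i - j) := by
      rw [Finset.sum_filter, Finset.sum_filter, hsumJ]
      refine Finset.sum_congr rfl fun l _ => ?_
      rw [hmv]
      have h6 : (l.1 ≠ x.1 ∧ m x ≤ m l) ↔ (l ≠ x ∧ m x ≤ m l) := by
        rw [Ne, Ne, Fin.val_inj]
      by_cases h7 : l ≠ x ∧ m x ≤ m l
      · rw [if_pos h7, if_pos (h6.2 h7)]
      · rw [if_neg h7, if_neg fun h8 => h7 (h6.1 h8)]
    have h6 : ∑ l ∈ J, m' l.1 = ∑ l ∈ J, m l := Finset.sum_congr rfl fun l _ => hmv l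
    rw [h5, h6]
    exact h4

end Pool.Agent.H74.CT
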